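import Pool.Agent.MP_caba0b_al.H43.Inv0

/-! Classification of the permutations of the weights and the choice of the constants. -/

namespace Pool.Agent.MP_caba0b_al.H43

open Equiv Filter Topology

namespace Side

variable {S : Side}

lemma form_A (π : Perm (Fin S.n)) (ξ : ℂ) : ‖ξ‖ ^ 2 - ‖S.A π ξ‖ ^ 2 =
    (1 - ‖S.A π 1‖ ^ 2) * ξ.re ^ 2 + 2 * (-ip (S.A π 1) (S.A π Complex.I)) * ξ.re * ξ.im +
      (1 - ‖S.A π Complex.I‖ ^ 2) * ξ.im ^ 2 := by
  rw [A_coord π ξ]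
  simp only [nsq_c, ip_eq, Complex.add_re, Complex.add_im, Complex.re_ofReal_mul,
    Complex.im_ofReal_mul]
  ring

lemma form_nonneg (π : Perm (Fin S.n)) (ξ : ℂ) : 0 ≤ ‖ξ‖ ^ 2 - ‖S.A π ξ‖ ^ 2 := by
  have h := df_nonneg (S.rho ξ ∘ π)
  rw [df_rho_perm] at h
  exact nonneg_of_mul_nonneg_right h (pow_pos N_pos 2)

lemma glob_of (π : Perm (Fin S.n)) (h1 : ‖S.A π 1‖ ^ 2 = 1) (h2 : ‖S.A π Complex.I‖ ^ 2 = 1)
    (h3 : ip (S.A π 1) (S.A π Complex.I) = 0) : ∃ ζ s, S.Glob π ζ s := by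
  have f1 : S.Fuse π 1 (S.A π 1) := fuse_A (by simpa using h1)
  have f2 : S.Fuse π Complex.I (S.A π Complex.I) := fuse_A (by simpa using h2)
  obtain ⟨ζ, hζ⟩ := int_of_rho (S := S) (ξ := S.A π 1) fun i =>
    ⟨(S.a (π i)).re, by rw [← f1]; simp [rho, ip_eq]⟩
  have hn : ζ.norm = 1 := by
    have : (ζ.norm : ℝ) = 1 := by rw [norm_gi, hζ, h1]
    exact_mod_cast this
  have e1 : ∀ i, (S.a (π i) : ℂ).re = ip (S.A π 1) (S.a i) := fun i => by
    simpa [rho, ip_eq] using congrFun f1 i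
  have e2 : ∀ i, (S.a (π i) : ℂ).im = ip (S.A π Complex.I) (S.a i) := fun i => by
    simpa [rho, ip_eq] using congrFun f2 i
  rw [← hζ] at h1 h3 e1
  generalize S.A π Complex.I = q at h2 h3 e2
  simp only [nsq_c, ip_eq] at h1 h2 h3 e1 e2
  have hd : ((ζ : ℂ).re * q.im - (ζ : ℂ).im * q.re - 1) *
      ((ζ : ℂ).re * q.im - (ζ : ℂ).im * q.re + 1) = 0 := by
    linear_combination (q.re ^ 2 + q.im ^ 2) * h1 + h2 -
      ((ζ : ℂ).re * q.re + (ζ : ℂ).im * q.im) * h3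
  rcases mul_eq_zero.1 hd with hd | hd
  · have q1 : q.re = -(ζ : ℂ).im := by
      linear_combination -q.re * h1 + (ζ : ℂ).re * h3 - (ζ : ℂ).im * hd
    have q2 : q.im = (ζ : ℂ).re := by
      linear_combination -q.im * h1 + (ζ : ℂ).im * h3 + (ζ : ℂ).re * hd
    refine ⟨ζ, false, hn, fun i => ?_⟩
    rw [← GaussianInt.toComplex_inj, act_cast]
    apply Complex.ext
    · simp only [actC, Bool.false_eq_true, if_false, Complex.mul_re, e1, e2, q1, q2]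
      linear_combination -(S.a i : ℂ).re * h1
    · simp only [actC, Bool.false_eq_true, if_false, Complex.mul_im, e1, e2, q1, q2]
      linear_combination -(S.a i : ℂ).im * h1
  · have q1 : q.re = (ζ : ℂ).im := by
      linear_combination -q.re * h1 + (ζ : ℂ).re * h3 - (ζ : ℂ).im * hd
    have q2 : q.im = -(ζ : ℂ).re := by
      linear_combination -q.im * h1 + (ζ : ℂ).im * h3 + (ζ : ℂ).re * hd
    refine ⟨ζ, true, hn, fun i => ?_⟩
    rw [← GaussianInt.toComplex_inj, act_cast]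
    apply Complex.ext
    · simp only [actC, if_true, Complex.mul_re, Complex.conj_re, Complex.conj_im, e1, e2, q1, q2]
      linear_combination -(S.a i : ℂ).re * h1
    · simp only [actC, if_true, Complex.mul_im, Complex.conj_re, Complex.conj_im, e1, e2, q1, q2]
      linear_combination -(S.a i : ℂ).im * h1

lemma exc_of (π : Perm (Fin S.n)) {a b c : ℝ}
    (hF : ∀ ξ : ℂ, ‖ξ‖ ^ 2 - ‖S.A π ξ‖ ^ 2 = a * ξ.re ^ 2 + 2 * b * ξ.re * ξ.im + c * ξ.im ^ 2)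
    {w : GaussianInt} (hw : w ≠ 0) (h1 : a * w.re + b * w.im = 0) (h2 : b * w.re + c * w.im = 0) :
    ∃ u v : GaussianInt, Prim u ∧ Prim v ∧ v.norm = u.norm ∧ S.Fuse π u v ∧
      ∀ ξ, cr (S.A π ξ) (un v) ^ 2 = (1 - (a + c)) * cr ξ (un u) ^ 2 := by
  obtain ⟨u, k, hu, hk, rfl⟩ := exists_prim hw
  have hk' : (k : ℝ) ≠ 0 := by exact_mod_cast hk.ne'
  simp at h1 h2
  have g1 : a * (un u).re + b * (un u).im = 0 := by
    apply mul_left_cancel₀ hk'
    simp only [un, Complex.re_ofReal_mul, Complex.im_ofReal_mul]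
    linear_combination ‖(u : ℂ)‖⁻¹ * h1
  have g2 : b * (un u).re + c * (un u).im = 0 := by
    apply mul_left_cancel₀ hk'
    simp only [un, Complex.re_ofReal_mul, Complex.im_ofReal_mul]
    linear_combination ‖(u : ℂ)‖⁻¹ * h2
  have f1 : S.Fuse π u (S.A π u) := fuse_A (by
    apply mul_left_cancel₀ hk'
    linear_combination -k * hF u - (u : ℂ).re * h1 - (u : ℂ).im * h2)
  obtain ⟨v, hv, hv', hn⟩ := f1.prim hu
  rw [← hv] at f1
  refine ⟨u, v, hu, hv', hn, f1, fun ξ => ?_⟩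
  have e1 := f1.un.ip (S.rho ξ)
  have e2 : ip (S.A π ξ) (un v) = ip ξ (un u) := by
    rw [A, smul_ip, e1, pR_rho, smul_ip, inv_mul_cancel_left₀ N_pos.ne']
  have e3 := ip_sq_add (S.A π ξ) (un v)
  have e4 := ip_sq_add ξ (un u)
  have e5 := nsq_c (un u)
  rw [norm_un hv'.1] at e3
  rw [norm_un hu.1] at e4 e5
  have e6 : (a + c) * cr ξ (un u) ^ 2 = a * ξ.re ^ 2 + 2 * b * ξ.re * ξ.im + c * ξ.im ^ 2 := by
    rw [cr_eq]
    linear_combination (a * ξ.re ^ 2 + 2 * b * ξ.re * ξ.im + c * ξ.im ^ 2) * -e5 -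
      ((ξ.re ^ 2 - ξ.im ^ 2) * (un u).re + 2 * ξ.re * ξ.im * (un u).im) * g1 -
      ((ξ.im ^ 2 - ξ.re ^ 2) * (un u).im + 2 * ξ.re * ξ.im * (un u).re) * g2
  rw [e2] at e3
  linear_combination e3 - e4 - hF ξ + e6

lemma cls_one (π : Perm (Fin S.n)) : ∀ᶠ p : ℕ × ℝ in atTop ×ˢ 𝓝[>] 0,
    (∃ ζ s, S.Glob π ζ s) ∨ (∀ ξ, ‖S.A π ξ‖ ^ 2 ≤ (1 - p.2) * ‖ξ‖ ^ 2) ∨
    ∃ u v : GaussianInt, Ex p.1 u ∧ Ex p.1 v ∧ S.Fuse π u v ∧
      ∀ ξ, cr (S.A π ξ) (un v) ^ 2 ≤ (1 - p.2) * cr ξ (un u) ^ 2 := by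
  have small : ∀ e : ℝ, 0 < e → ∀ᶠ p : ℕ × ℝ in atTop ×ˢ 𝓝[>] 0, p.2 ≤ e := fun e he =>
    tendsto_snd.eventually (nhdsWithin_le_nhds (eventually_le_nhds he))
  obtain ⟨a, ha⟩ : ∃ a, a = 1 - ‖S.A π 1‖ ^ 2 := ⟨_, rfl⟩
  obtain ⟨b, hb⟩ : ∃ b, b = -ip (S.A π 1) (S.A π Complex.I) := ⟨_, rfl⟩
  obtain ⟨c, hc⟩ : ∃ c, c = 1 - ‖S.A π Complex.I‖ ^ 2 := ⟨_, rfl⟩
  have hF := form_A (S := S) π
  rw [← ha, ← hb, ← hc] at hF
  have hP : ∀ x y : ℝ, 0 ≤ a * x ^ 2 + 2 * b * x * y + c * y ^ 2 := fun x y =>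
    (form_nonneg π ⟨x, y⟩).trans_eq (hF _)
  have ha0 : 0 ≤ a := by simpa using hP 1 0
  have hc0 : 0 ≤ c := by simpa using hP 0 1
  rcases (add_nonneg ha0 hc0).eq_or_lt with h | h
  · have h1 : a = 0 := by linarith
    have h2 : c = 0 := by linarith
    have h3 : b = 0 := by
      have := hP 1 (-b)
      rw [h1, h2] at this
      nlinarith [sq_nonneg b]
    exact Eventually.of_forall fun _ => Or.inl (glob_of π (by linarith) (by linarith) (by linarith))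
  have hd : 0 ≤ a * c - b ^ 2 := by
    refine nonneg_of_mul_nonneg_right ?_ h
    nlinarith [hP (-b) a, hP c (-b)]
  rcases hd.eq_or_lt with hd | hd
  · obtain ⟨P, hP'⟩ := A_int (S := S) π 1
    obtain ⟨Q, hQ'⟩ := A_int (S := S) π ⟨0, 1⟩
    have hN := (N_pos (S := S)).ne'
    have eI : ((⟨0, 1⟩ : GaussianInt) : ℂ) = Complex.I := by simp [GaussianInt.toComplex_def']
    rw [map_one] at hP'
    rw [eI] at hQ'
    have ea : ((S.N ^ 2 - P.norm : ℤ) : ℝ) = S.N ^ 2 * a := by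
      push_cast
      rw [ha, hP', norm_gi, norm_mul, Complex.norm_real, Real.norm_eq_abs, mul_pow, sq_abs]
      field_simp
    have ec : ((S.N ^ 2 - Q.norm : ℤ) : ℝ) = S.N ^ 2 * c := by
      push_cast
      rw [hc, hQ', norm_gi, norm_mul, Complex.norm_real, Real.norm_eq_abs, mul_pow, sq_abs]
      field_simp
    have eb : (((P * star Q).re : ℤ) : ℝ) = -(S.N ^ 2 * b) := by
      rw [hb, hP', hQ', smul_ip, ip_smul]
      simp [ip_eq]
      field_simp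
    obtain ⟨w, hw, h1, h2⟩ : ∃ w : GaussianInt, w ≠ 0 ∧ a * w.re + b * w.im = 0 ∧
        b * w.re + c * w.im = 0 := by
      by_cases h0 : a = 0
      · refine ⟨1, one_ne_zero, by simp [h0], ?_⟩
        rw [h0] at hd
        simpa using hd
      · refine ⟨⟨(P * star Q).re, S.N ^ 2 - P.norm⟩, fun e => ?_, ?_, ?_⟩
        · have := congrArg (fun z : GaussianInt => (z.im : ℝ)) e
          simp only [ea, Zsqrtd.im_zero, Int.cast_zero] at this
          exact mul_ne_zero (pow_ne_zero 2 hN) h0 this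
        · simp only [ea, eb]; ring
        · simp only [ea, eb]; linear_combination -(S.N : ℝ) ^ 2 * hd
    obtain ⟨u, v, hu, hv, hn, hf, hcr⟩ := exc_of π hF hw h1 h2
    filter_upwards [small _ h, tendsto_fst.eventually (eventually_ge_atTop u.norm.natAbs)] with
      p h1 h2
    have h3 : u.norm ≤ p.1 := Int.le_natAbs.trans (by exact_mod_cast h2)
    refine Or.inr (Or.inr ⟨u, v, ⟨hu, h3⟩, ⟨hv, hn ▸ h3⟩, hf, fun ξ => ?_⟩)
    rw [hcr]
    exact mul_le_mul_of_nonneg_right (by linarith) (sq_nonneg _)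
  · filter_upwards [small _ (div_pos hd h)] with p h1
    refine Or.inr (Or.inl fun ξ => ?_)
    rw [le_div_iff₀ h] at h1
    have h2 : p.2 * ‖ξ‖ ^ 2 ≤ ‖ξ‖ ^ 2 - ‖S.A π ξ‖ ^ 2 := by
      refine le_of_mul_le_mul_left ?_ h
      have h3 := mul_le_mul_of_nonneg_right h1 (sq_nonneg ‖ξ‖)
      rw [hF]
      rw [nsq_c ξ] at h3 ⊢
      nlinarith [sq_nonneg (a * ξ.re + b * ξ.im), sq_nonneg (b * ξ.re + c * ξ.im)]
    linarith

lemma geo (S : Side) : ∀ᶠ p : ℕ × ℝ in atTop ×ˢ 𝓝[>] 0, S.Geo p.1 p.2 := by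
  filter_upwards [eventually_all.2 (cls_one (S := S)), eventually_all.2 fun i => eventually_all.2
    fun j => tendsto_fst.eventually (eventually_ge_atTop (S.a i - S.a j).norm.natAbs)] with p h1 h2
  exact ⟨h1, fun i j => Int.le_natAbs.trans (by exact_mod_cast h2 i j)⟩

end Side

theorem cls : ClsStmt := by
  intro S S'
  obtain ⟨pa, ha, pb, hb, h⟩ := eventually_prod_iff.1 (S.geo.and S'.geo)
  obtain ⟨m, h1, hm⟩ := (ha.and (eventually_ge_atTop 1)).exists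
  have hm' : (1 : ℝ) ≤ (m : ℝ) ^ 2 := one_le_pow₀ (by exact_mod_cast hm)
  obtain ⟨ε, h2, h3, h5⟩ := (hb.and (((eventually_le_nhds
    (show (0 : ℝ) < 1 / (m : ℝ) ^ 2 by positivity)).filter_mono nhdsWithin_le_nhds).and
      (eventually_mem_nhdsWithin (s := Set.Ioi (0 : ℝ))))).exists
  rw [Set.mem_Ioi] at h5
  rw [le_div_iff₀ (by positivity)] at h3
  have h6 : ε ≤ 1 := by nlinarith
  obtain ⟨u, hu⟩ : ∃ u, u = ε ^ 3 / 1024 := ⟨_, rfl⟩
  have u0 : 0 < u := by rw [hu]; positivity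
  have u1 : u ≤ ε / 1024 := by
    have := pow_le_pow_of_le_one h5.le h6 (show 1 ≤ 3 by norm_num)
    rw [hu]; linarith
  have u2 : ε * u ≤ u := mul_le_of_le_one_left u0.le h6
  have u3 : 1 - 4 * u ≤ (1 - u) ^ 4 := by
    have := one_add_mul_le_pow (show (-2 : ℝ) ≤ -u by linarith) 4
    simpa [sub_eq_add_neg] using this
  exact ⟨m, ε, 1 - u, u, ε * u / 3, (h h1 h2).1, (h h1 h2).2, hm, h5, h3, by linarith, by linarith,
    by nlinarith, by linarith, by positivity, u0, by nlinarith, by linarith, by nlinarith,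
    by linarith, by linarith⟩

end Pool.Agent.MP_caba0b_al.H43
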