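import Mathlib

/-! The amalgamation property for compact groups. -/

namespace Pool.Agent.MP_caba0b_al.H43

universe u v

/-- `A` is an amalgamation base for compact groups: any two compact Hausdorff groups `B`, `C` with
continuous injective homomorphisms `i : A → B`, `j : A → C` embed in a compact Hausdorff group `D`
by continuous injective homomorphisms that agree on `A`. -/
def Amalg (A : Type v) [Group A] [TopologicalSpace A] : Prop :=
  ∀ (B : Type u) [Group B] [TopologicalSpace B] [IsTopologicalGroup B] [CompactSpace B] [T2Space B]
    (C : Type u) [Group C] [TopologicalSpace C] [IsTopologicalGroup C] [CompactSpace C] [T2Space C]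
    (i : A →* B) (j : A →* C), Continuous i → Function.Injective i → Continuous j →
    Function.Injective j →
    ∃ (D : Type u) (_ : Group D) (_ : TopologicalSpace D) (_ : IsTopologicalGroup D)
      (_ : CompactSpace D) (_ : T2Space D) (f : B →* D) (g : C →* D),
      Continuous f ∧ Function.Injective f ∧ Continuous g ∧ Function.Injective g ∧
        ∀ a, f (i a) = g (j a)

end Pool.Agent.MP_caba0b_al.H43
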