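import Pool.Agent.MP_caba0b_al.H43.Iface

/-! Plane geometry of the weights of one side. -/

namespace Pool.Agent.MP_caba0b_al.H43

open Equiv ComplexConjugate

/-- inner product in the plane -/
def ip (z e : ℂ) : ℝ := (z * conj e).re
/-- cross product in the plane -/
def cr (z e : ℂ) : ℝ := (z * conj e).im

lemma ip_eq (z e : ℂ) : ip z e = z.re * e.re + z.im * e.im := by simp [ip]
lemma cr_eq (z e : ℂ) : cr z e = z.im * e.re - z.re * e.im := by simp [cr]; ring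
lemma nsq_c (z : ℂ) : ‖z‖ ^ 2 = z.re ^ 2 + z.im ^ 2 := by
  rw [Complex.sq_norm, Complex.normSq_apply]; ring

lemma ip_sq_add (z e : ℂ) : ip z e ^ 2 + cr z e ^ 2 = ‖z‖ ^ 2 * ‖e‖ ^ 2 := by
  rw [ip_eq, cr_eq, nsq_c, nsq_c]; ring

lemma ip_self (z : ℂ) : ip z z = ‖z‖ ^ 2 := by rw [ip_eq, nsq_c]; ring
lemma ip_comm (z e : ℂ) : ip z e = ip e z := by rw [ip_eq, ip_eq]; ring
lemma ip_add (z w e : ℂ) : ip (z + w) e = ip z e + ip w e := by simp [ip_eq]; ring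
lemma cr_add (z w e : ℂ) : cr (z + w) e = cr z e + cr w e := by simp [cr_eq]; ring
lemma ip_neg (z e : ℂ) : ip z (-e) = -ip z e := by simp [ip_eq]; ring
lemma cr_neg (z e : ℂ) : cr z (-e) = -cr z e := by simp [cr_eq]; ring
lemma ip_smul (t : ℝ) (z e : ℂ) : ip z (t * e) = t * ip z e := by simp [ip_eq]; ring
lemma cr_smul (t : ℝ) (z e : ℂ) : cr z (t * e) = t * cr z e := by simp [cr_eq]; ring
lemma smul_ip (t : ℝ) (z e : ℂ) : ip (t * z) e = t * ip z e := by simp [ip_eq]; ring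

lemma abs_ip_le (z e : ℂ) : |ip z e| ≤ ‖z‖ * ‖e‖ := by
  simpa only [norm_mul, Complex.norm_conj, ip] using Complex.abs_re_le_norm (z * conj e)
lemma abs_cr_le (z e : ℂ) : |cr z e| ≤ ‖z‖ * ‖e‖ := by
  simpa only [norm_mul, Complex.norm_conj, cr] using Complex.abs_im_le_norm (z * conj e)

lemma norm_gi (u : GaussianInt) : (u.norm : ℝ) = ‖(u : ℂ)‖ ^ 2 := by
  rw [Complex.sq_norm, ← GaussianInt.intCast_real_norm]

/-- primitive Gaussian integers -/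
def Prim (u : GaussianInt) : Prop :=
  u ≠ 0 ∧ ∀ t : ℝ, (∃ v : GaussianInt, (v : ℂ) = t * u) → ∃ k : ℤ, t = k

/-- the unit vector in the direction of `u` -/
noncomputable def un (u : GaussianInt) : ℂ := ((‖(u : ℂ)‖⁻¹ : ℝ) : ℂ) * u

lemma gi_ne {u : GaussianInt} (h : u ≠ 0) : (u : ℂ) ≠ 0 := fun e =>
  h (GaussianInt.toComplex_eq_zero.1 e)

lemma one_le_norm {u : GaussianInt} (h : u ≠ 0) : 1 ≤ ‖(u : ℂ)‖ := by
  have h1 : (1 : ℝ) ≤ u.norm := by exact_mod_cast GaussianInt.norm_pos.2 h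
  rw [norm_gi] at h1
  nlinarith [norm_nonneg (u : ℂ)]

lemma norm_un {u : GaussianInt} (h : u ≠ 0) : ‖un u‖ = 1 := by
  have := one_le_norm h
  rw [un, norm_mul, Complex.norm_real, Real.norm_eq_abs, abs_inv, abs_norm]
  field_simp

lemma un_neg (u : GaussianInt) : un (-u) = -un u := by simp [un]

lemma Prim.neg {u : GaussianInt} (h : Prim u) : Prim (-u) := by
  refine ⟨neg_ne_zero.2 h.1, fun t ⟨v, hv⟩ => h.2 t ⟨-v, ?_⟩⟩
  simp [hv]

lemma exists_prim {w : GaussianInt} (h : w ≠ 0) :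
    ∃ (u : GaussianInt) (k : ℕ), Prim u ∧ 0 < k ∧ w = k * u := by
  have hg : 0 < Int.gcd w.re w.im := by
    rw [Int.gcd_pos_iff]
    by_contra hc
    push Not at hc
    exact h (Zsqrtd.ext hc.1 hc.2)
  obtain ⟨x, y, hxy, hx, hy⟩ := Int.exists_gcd_one hg
  have e : w = (Int.gcd w.re w.im : ℕ) * (⟨x, y⟩ : GaussianInt) := by
    ext
    · simp; linarith
    · simp; linarith
  refine ⟨⟨x, y⟩, _, ⟨fun h0 => h (by rw [e, h0, mul_zero]), fun t ⟨v, hv⟩ => ?_⟩, hg, e⟩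
  have h1 : (v.re : ℝ) = t * x := by simpa using congrArg Complex.re hv
  have h2 : (v.im : ℝ) = t * y := by simpa using congrArg Complex.im hv
  have h3 := Int.gcd_eq_gcd_ab x y
  rw [hxy] at h3
  have h4 : (1 : ℝ) = x * Int.gcdA x y + y * Int.gcdB x y := by exact_mod_cast h3
  refine ⟨v.re * Int.gcdA x y + v.im * Int.gcdB x y, ?_⟩
  push_cast
  rw [h1, h2]
  linear_combination t * h4

lemma un_nat_mul (u : GaussianInt) {k : ℕ} (hk : 0 < k) : un (k * u) = un u := by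
  have : (k : ℂ) ≠ 0 := by exact_mod_cast hk.ne'
  simp only [un, map_mul, map_natCast, norm_mul, Complex.norm_natCast, mul_inv]
  push_cast
  field_simp

lemma norm_le_nat_mul (u : GaussianInt) {k : ℕ} (hk : 0 < k) :
    u.norm ≤ ((k : GaussianInt) * u).norm := by
  rw [Zsqrtd.norm_mul, Zsqrtd.norm_natCast]
  have h1 : (1 : ℤ) ≤ k * k := by nlinarith
  nlinarith [GaussianInt.norm_nonneg u]

lemma prim_par {u v : GaussianInt} (hu : Prim u) (hv : Prim v) (h : cr u v = 0) :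
    v = u ∨ v = -u := by
  have hu0 := one_le_norm hu.1
  have hv0 := one_le_norm hv.1
  rw [cr_eq] at h
  have e1 : (v : ℂ) = ((ip u v / ‖(u : ℂ)‖ ^ 2 : ℝ) : ℂ) * u := by
    have h2 : ‖(u : ℂ)‖ ^ 2 ≠ 0 := by positivity
    apply Complex.ext
    · rw [Complex.re_ofReal_mul, div_mul_eq_mul_div, eq_div_iff h2, nsq_c, ip_eq]
      linear_combination (u : ℂ).im * h
    · rw [Complex.im_ofReal_mul, div_mul_eq_mul_div, eq_div_iff h2, nsq_c, ip_eq]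
      linear_combination -(u : ℂ).re * h
  obtain ⟨k, hk⟩ := hu.2 _ ⟨v, e1⟩
  rw [hk] at e1
  have hk0 : (k : ℝ) ≠ 0 := fun h0 => gi_ne hv.1 (by rw [e1, h0]; simp)
  obtain ⟨l, hl⟩ := hv.2 (k : ℝ)⁻¹ ⟨u, by
    have : ((k : ℝ) : ℂ) ≠ 0 := by exact_mod_cast hk0
    rw [e1, Complex.ofReal_inv, inv_mul_cancel_left₀ this]⟩
  have hkl : k * l = 1 := by
    have : (k : ℝ) * l = 1 := by rw [← hl]; field_simp
    exact_mod_cast this
  rcases Int.eq_one_or_neg_one_of_mul_eq_one hkl with rfl | rfl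
  · exact Or.inl (GaussianInt.toComplex_inj.1 (by simpa using e1))
  · exact Or.inr (GaussianInt.toComplex_inj.1 (by simpa using e1))

/-- the exceptional directions -/
def Ex (m : ℕ) (u : GaussianInt) : Prop := Prim u ∧ u.norm ≤ m

lemma Ex.neg {m : ℕ} {u : GaussianInt} (h : Ex m u) : Ex m (-u) := ⟨h.1.neg, by simpa using h.2⟩

lemma Ex.norm_un {m : ℕ} {u : GaussianInt} (h : Ex m u) : ‖un u‖ = 1 := H43.norm_un h.1.1

lemma ex_sep {m : ℕ} {ε : ℝ} (hε : ε * m ^ 2 ≤ 1) {u v : GaussianInt} (hu : Ex m u) (hv : Ex m v)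
    (h1 : v ≠ u) (h2 : v ≠ -u) : ε ≤ cr (un u) (un v) ^ 2 := by
  have hu0 := one_le_norm hu.1.1
  have hv0 := one_le_norm hv.1.1
  have h0 : cr u v ≠ 0 := fun h => (prim_par hu.1 hv.1 h).elim h1 h2
  have e : cr u v = ((u.im * v.re - u.re * v.im : ℤ) : ℝ) := by simp [cr_eq]
  have h3 : 1 ≤ cr u v ^ 2 := by
    rw [e] at h0 ⊢
    have : (u.im * v.re - u.re * v.im : ℤ) ≠ 0 := by exact_mod_cast h0
    exact_mod_cast (one_le_sq_iff_one_le_abs _).2 (Int.one_le_abs this)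
  have e2 : cr (un u) (un v) = cr u v / (‖(u : ℂ)‖ * ‖(v : ℂ)‖) := by
    simp only [un, cr_eq, Complex.re_ofReal_mul, Complex.im_ofReal_mul]
    field_simp
  have h4 : ‖(u : ℂ)‖ ^ 2 ≤ m := by rw [← norm_gi]; exact_mod_cast hu.2
  have h5 : ‖(v : ℂ)‖ ^ 2 ≤ m := by rw [← norm_gi]; exact_mod_cast hv.2
  rw [e2, div_pow, le_div_iff₀ (by positivity), mul_pow]
  by_cases hε0 : ε ≤ 0
  · nlinarith [mul_nonneg (sq_nonneg ‖(u : ℂ)‖) (sq_nonneg ‖(v : ℂ)‖)]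
  · have h6 : ‖(u : ℂ)‖ ^ 2 * ‖(v : ℂ)‖ ^ 2 ≤ m ^ 2 := by
      rw [sq (m : ℝ)]
      exact mul_le_mul h4 h5 (sq_nonneg _) (Nat.cast_nonneg m)
    nlinarith

lemma finite_norm_le (B : ℝ) : {u : GaussianInt | (u.norm : ℝ) ≤ B}.Finite := by
  refine (((Set.finite_Icc (-⌈B⌉) ⌈B⌉).prod (Set.finite_Icc (-⌈B⌉) ⌈B⌉)).image
    fun p : ℤ × ℤ => (⟨p.1, p.2⟩ : GaussianInt)).subset fun u hu => ⟨(u.re, u.im), ?_, rfl⟩
  have h1 : u.norm ≤ ⌈B⌉ := by exact_mod_cast (Set.mem_ofPred.1 hu).trans (Int.le_ceil B)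
  rw [Zsqrtd.norm_def] at h1
  refine ⟨⟨?_, ?_⟩, ?_, ?_⟩ <;> nlinarith [sq_nonneg (u.re - 1), sq_nonneg (u.re + 1),
    sq_nonneg (u.im - 1), sq_nonneg (u.im + 1), sq_nonneg u.re, sq_nonneg u.im]

/-- the symmetries of the square lattice -/
def act (ζ : GaussianInt) (s : Bool) (z : GaussianInt) : GaussianInt :=
  ζ * if s then star z else z

noncomputable def actC (ζ : GaussianInt) (s : Bool) (z : ℂ) : ℂ :=
  ζ * if s then conj z else z

lemma act_cast (ζ : GaussianInt) (s : Bool) (z : GaussianInt) :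
    (act ζ s z : ℂ) = actC ζ s z := by
  cases s <;> simp [act, actC]

section act

variable {ζ : GaussianInt} (hζ : ζ.norm = 1) (s : Bool)
include hζ

lemma norm_unit : ‖(ζ : ℂ)‖ = 1 := by
  have := norm_gi ζ
  rw [hζ, Int.cast_one] at this
  exact (pow_eq_one_iff_of_nonneg (norm_nonneg _) two_ne_zero).1 this.symm

lemma norm_actC (z : ℂ) : ‖actC ζ s z‖ = ‖z‖ := by
  cases s <;> simp [actC, norm_unit hζ]

lemma ip_actC (z e : ℂ) : ip (actC ζ s z) (actC ζ s e) = ip z e := by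
  have := nsq_c (ζ : ℂ)
  rw [norm_unit hζ] at this
  cases s
  · simp only [actC, ip_eq, Bool.false_eq_true, if_false, Complex.mul_re, Complex.mul_im]
    linear_combination -(z.re * e.re + z.im * e.im) * this
  · simp only [actC, ip_eq, if_true, Complex.mul_re, Complex.mul_im, Complex.conj_re,
      Complex.conj_im]
    linear_combination -(z.re * e.re + z.im * e.im) * this

lemma cr_actC (z e : ℂ) : |cr (actC ζ s z) (actC ζ s e)| = |cr z e| := by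
  rw [← sq_eq_sq_iff_abs_eq_abs]
  have h1 := ip_sq_add (actC ζ s z) (actC ζ s e)
  have h2 := ip_sq_add z e
  rw [ip_actC hζ, norm_actC hζ, norm_actC hζ] at h1
  linarith

lemma un_act (u : GaussianInt) : un (act ζ s u) = actC ζ s (un u) := by
  rw [un, act_cast, norm_actC hζ]
  cases s <;> simp [actC, un] <;> ring

lemma act_surj : ∃ ζ' : GaussianInt, ζ'.norm = 1 ∧ (∀ z, act ζ s (act ζ' s z) = z) ∧
    ∀ z, act ζ' s (act ζ s z) = z := by
  have e : ζ * star ζ = 1 := by rw [← Zsqrtd.norm_eq_mul_conj, hζ]; simp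
  cases s
  · refine ⟨star ζ, by simpa using hζ, fun z => ?_, fun z => ?_⟩
    · simp [act, ← mul_assoc, e]
    · simp only [act, Bool.false_eq_true, if_false]
      linear_combination z * e
  · refine ⟨ζ, hζ, fun z => ?_, fun z => ?_⟩ <;>
    · simp only [act, if_true, star_mul, star_star]
      linear_combination z * e

lemma norm_act (u : GaussianInt) : (act ζ s u).norm = u.norm := by
  cases s <;> simp [act, hζ]

lemma Prim.act {u : GaussianInt} (h : Prim u) : Prim (act ζ s u) := by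
  obtain ⟨ζ', _, _, h2⟩ := act_surj hζ s
  refine ⟨fun h0 => h.1 ?_, fun t ⟨v, hv⟩ => h.2 t ⟨H43.act ζ' s v, ?_⟩⟩
  · rw [← h2 u, h0]
    cases s <;> simp [H43.act]
  · conv_rhs => rw [← h2 u]
    rw [act_cast, act_cast, hv]
    cases s <;> simp [actC] <;> ring

lemma Ex.act {m : ℕ} {u : GaussianInt} (h : Ex m u) : Ex m (act ζ s u) :=
  ⟨h.1.act hζ s, by rw [norm_act hζ]; exact h.2⟩

end act

namespace Side

variable (S : Side)

noncomputable def pR (ν : Fin S.n → ℝ) : ℂ := ∑ i, (ν i : ℂ) * (S.a i : ℂ)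

noncomputable def rho (ξ : ℂ) : Fin S.n → ℝ := fun i => ip ξ (S.a i)

/-- the defect -/
noncomputable def df (ν : Fin S.n → ℝ) : ℝ := S.N * ∑ i, ν i ^ 2 - ‖S.pR ν‖ ^ 2

noncomputable def A (π : Perm (Fin S.n)) (ξ : ℂ) : ℂ := ((S.N : ℝ)⁻¹ : ℝ) * S.pR (S.rho ξ ∘ π)

def Glob (π : Perm (Fin S.n)) (ζ : GaussianInt) (s : Bool) : Prop :=
  ζ.norm = 1 ∧ ∀ i, S.a i = act ζ s (S.a (π i))

def Fuse (π : Perm (Fin S.n)) (u v : ℂ) : Prop := S.rho u ∘ π = S.rho v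

variable {S}

lemma N_pos : (0 : ℝ) < S.N := by exact_mod_cast S.hN
lemma one_le_N : (1 : ℝ) ≤ S.N := by exact_mod_cast S.hN

lemma push_cast' (ν : Wt S.n) : (S.push ν : ℂ) = S.pR fun i => ν i := by
  simp [push, pR]

lemma pR_rho (ξ : ℂ) : S.pR (S.rho ξ) = ((S.N : ℝ) : ℂ) * ξ := by
  simpa [pR, rho, ip] using S.tight ξ

lemma ip_pR (ν : Fin S.n → ℝ) (ξ : ℂ) : ip (S.pR ν) ξ = ∑ i, ν i * S.rho ξ i := by
  simp only [pR, rho, ip, Finset.sum_mul, Complex.re_sum]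
  exact Finset.sum_congr rfl fun i _ => by simp; ring

lemma pR_add (ν ν' : Fin S.n → ℝ) : S.pR (ν + ν') = S.pR ν + S.pR ν' := by
  simp [pR, add_mul, Finset.sum_add_distrib]

lemma pR_smul (t : ℝ) (ν : Fin S.n → ℝ) : S.pR (t • ν) = t * S.pR ν := by
  simp [pR, Finset.mul_sum, mul_assoc]

lemma rho_smul (t : ℝ) (ξ : ℂ) : S.rho (t * ξ) = t • S.rho ξ := funext fun _ => smul_ip _ _ _

lemma rho_add (ξ ξ' : ℂ) : S.rho (ξ + ξ') = S.rho ξ + S.rho ξ' := funext fun _ => ip_add _ _ _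

lemma rho_dot (ξ ξ' : ℂ) : ∑ i, S.rho ξ i * S.rho ξ' i = S.N * ip ξ ξ' := by
  rw [← ip_pR, pR_rho, smul_ip]

lemma df_eq (ν : Fin S.n → ℝ) :
    S.df ν = S.N * ∑ i, (ν i - (S.N : ℝ)⁻¹ * S.rho (S.pR ν) i) ^ 2 := by
  have hN := N_pos (S := S)
  have h1 := ip_pR ν (S.pR ν)
  have h2 := rho_dot (S := S) (S.pR ν) (S.pR ν)
  rw [ip_self] at h1 h2
  have : ∑ i, (ν i - (S.N : ℝ)⁻¹ * S.rho (S.pR ν) i) ^ 2 = ∑ i, ν i ^ 2 -
      2 * (S.N : ℝ)⁻¹ * ∑ i, ν i * S.rho (S.pR ν) i +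
      (S.N : ℝ)⁻¹ ^ 2 * ∑ i, S.rho (S.pR ν) i * S.rho (S.pR ν) i := by
    simp only [Finset.mul_sum, ← Finset.sum_sub_distrib, ← Finset.sum_add_distrib]
    exact Finset.sum_congr rfl fun i _ => by ring
  rw [this, ← h1, h2, df]
  field_simp
  ring

lemma df_nonneg (ν : Fin S.n → ℝ) : 0 ≤ S.df ν := by
  rw [df_eq]; positivity

lemma sum_sq_perm (ν : Fin S.n → ℝ) (π : Perm (Fin S.n)) : ∑ i, (ν ∘ π) i ^ 2 = ∑ i, ν i ^ 2 :=
  Equiv.sum_comp π fun i => ν i ^ 2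

lemma norm_pR_le (ν : Fin S.n → ℝ) (π : Perm (Fin S.n)) :
    ‖S.pR (ν ∘ π)‖ ^ 2 ≤ S.N * ∑ i, ν i ^ 2 := by
  have := df_nonneg (ν ∘ π)
  rw [df, sum_sq_perm] at this
  linarith

lemma eq_rho_of_df {ν : Fin S.n → ℝ} (h : S.df ν = 0) :
    ν = S.rho (((S.N : ℝ)⁻¹ : ℝ) * S.pR ν) := by
  rw [df_eq, mul_eq_zero, or_iff_right N_pos.ne',
    Finset.sum_eq_zero_iff_of_nonneg fun _ _ => sq_nonneg _] at h
  funext i
  have := h i (Finset.mem_univ i)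
  rw [rho_smul]
  simpa [sub_eq_zero] using this

lemma pR_perm (ν : Fin S.n → ℝ) (π : Perm (Fin S.n)) :
    ∃ E : ℂ, S.pR (ν ∘ π) = S.A π (S.pR ν) + E ∧ ‖E‖ ^ 2 ≤ S.df ν := by
  refine ⟨S.pR ((fun i => ν i - (S.N : ℝ)⁻¹ * S.rho (S.pR ν) i) ∘ π), ?_, ?_⟩
  · rw [A, ← pR_smul, ← pR_add]
    congr 1
    funext i
    simp
  · rw [df_eq]
    exact norm_pR_le _ π

lemma Fuse.ip {π : Perm (Fin S.n)} {u v : ℂ} (h : S.Fuse π u v) (ν : Fin S.n → ℝ) :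
    ip (S.pR (ν ∘ π)) v = ip (S.pR ν) u := by
  rw [ip_pR, ip_pR, ← h]
  exact Equiv.sum_comp π fun i => ν i * S.rho u i

lemma Fuse.smul {π : Perm (Fin S.n)} {u v : ℂ} (h : S.Fuse π u v) (t : ℝ) :
    S.Fuse π (t * u) (t * v) := by
  rw [Fuse, rho_smul, rho_smul, ← h]; rfl

lemma Fuse.neg {π : Perm (Fin S.n)} {u v : ℂ} (h : S.Fuse π u v) : S.Fuse π (-u) (-v) := by
  simpa using h.smul (-1)

lemma Fuse.norm {π : Perm (Fin S.n)} {u v : ℂ} (h : S.Fuse π u v) : ‖v‖ = ‖u‖ := by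
  have h1 := h.ip (S.rho u)
  rw [h, pR_rho, pR_rho, smul_ip, smul_ip, ip_self, ip_self] at h1
  have := mul_left_cancel₀ N_pos.ne' h1
  exact (pow_left_inj₀ (norm_nonneg _) (norm_nonneg _) two_ne_zero).1 this

lemma Fuse.un {π : Perm (Fin S.n)} {u v : GaussianInt} (h : S.Fuse π u v) :
    S.Fuse π (un u) (un v) := by
  rw [H43.un, H43.un, h.norm]
  exact h.smul _

lemma int_of_rho {ξ : ℂ} (h : ∀ i, ∃ k : ℤ, S.rho ξ i = k) : ∃ v : GaussianInt, (v : ℂ) = ξ := by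
  choose k hk using h
  obtain ⟨ν₁, h₁⟩ := S.surj 1
  obtain ⟨ν₂, h₂⟩ := S.surj ⟨0, 1⟩
  have e1 := ip_pR (fun i => ν₁ i) ξ
  have e2 := ip_pR (fun i => ν₂ i) ξ
  rw [← push_cast', push, h₁, ip_eq] at e1
  rw [← push_cast', push, h₂, ip_eq] at e2
  refine ⟨⟨∑ i, ν₁ i * k i, ∑ i, ν₂ i * k i⟩, Complex.ext ?_ ?_⟩
  · simpa [hk] using e1.symm
  · simpa [hk] using e2.symm

lemma rho_int (u : GaussianInt) (i : Fin S.n) : S.rho u i = ((u * star (S.a i)).re : ℤ) := by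
  simp [rho, ip_eq]

lemma Fuse.prim {π : Perm (Fin S.n)} {u : GaussianInt} {ξ : ℂ} (h : S.Fuse π u ξ) (hu : Prim u) :
    ∃ v : GaussianInt, (v : ℂ) = ξ ∧ Prim v ∧ v.norm = u.norm := by
  obtain ⟨v, rfl⟩ := int_of_rho (S := S) (ξ := ξ) fun i => ⟨_, by rw [← h]; exact rho_int u _⟩
  have hn : v.norm = u.norm := by
    have : (v.norm : ℝ) = u.norm := by rw [norm_gi, norm_gi, h.norm]
    exact_mod_cast this
  refine ⟨v, rfl, ⟨fun h0 => hu.1 ?_, fun t ⟨w, hw⟩ => hu.2 t (int_of_rho (S := S) fun i => ?_)⟩, hn⟩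
  · rw [h0] at hn
    exact (GaussianInt.norm_eq_zero.1 (by simpa using hn.symm))
  · have := congrFun (h.smul t) (π⁻¹ i)
    rw [← hw, rho_int] at this
    simp only [Function.comp, Perm.coe_inv, Equiv.apply_symm_apply] at this
    exact ⟨_, this⟩

lemma Glob.fuse {π : Perm (Fin S.n)} {ζ : GaussianInt} {s : Bool} (h : S.Glob π ζ s) (ξ : ℂ) :
    S.Fuse π ξ (actC ζ s ξ) := by
  funext i
  simp only [Function.comp, rho]
  rw [h.2 i, act_cast, ip_actC h.1]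

lemma Glob.pR {π : Perm (Fin S.n)} {ζ : GaussianInt} {s : Bool} (h : S.Glob π ζ s)
    (ν : Fin S.n → ℝ) : S.pR (ν ∘ π) = actC ζ s (S.pR ν) := by
  have : S.pR ν = ∑ i, (ν (π i) : ℂ) * (S.a (π i) : ℂ) :=
    (Equiv.sum_comp π fun i => (ν i : ℂ) * (S.a i : ℂ)).symm
  rw [this, Side.pR]
  conv_lhs => enter [2, i]; rw [h.2 i, act_cast]
  cases s <;> simp [actC, Finset.mul_sum, mul_left_comm]

lemma Glob.push {π : Perm (Fin S.n)} {ζ : GaussianInt} {s : Bool} (h : S.Glob π ζ s)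
    (ν : Wt S.n) : S.push (ν ∘ π) = act ζ s (S.push ν) := by
  rw [← GaussianInt.toComplex_inj, act_cast, push_cast', push_cast', ← h.pR]
  rfl

lemma A_coord (π : Perm (Fin S.n)) (ξ : ℂ) :
    S.A π ξ = (ξ.re : ℂ) * S.A π 1 + (ξ.im : ℂ) * S.A π Complex.I := by
  conv_lhs => rw [← Complex.re_add_im ξ, ← mul_one (ξ.re : ℂ)]
  simp only [A, rho_add, rho_smul]
  rw [show (ξ.re • S.rho 1 + ξ.im • S.rho Complex.I) ∘ π =
    ξ.re • (S.rho 1 ∘ π) + ξ.im • (S.rho Complex.I ∘ π) from rfl, pR_add, pR_smul, pR_smul]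
  ring

lemma df_rho_perm (π : Perm (Fin S.n)) (ξ : ℂ) :
    S.df (S.rho ξ ∘ π) = S.N ^ 2 * (‖ξ‖ ^ 2 - ‖S.A π ξ‖ ^ 2) := by
  have hN := N_pos (S := S)
  have h := rho_dot (S := S) ξ ξ
  rw [ip_self] at h
  simp only [← sq] at h
  rw [df, sum_sq_perm, h, A, norm_mul, Complex.norm_real, Real.norm_eq_abs, abs_inv, Nat.abs_cast]
  field_simp

lemma fuse_A {π : Perm (Fin S.n)} {ξ : ℂ} (h : ‖S.A π ξ‖ ^ 2 = ‖ξ‖ ^ 2) :
    S.Fuse π ξ (S.A π ξ) :=
  eq_rho_of_df (by rw [df_rho_perm, h, sub_self, mul_zero])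

lemma A_int (π : Perm (Fin S.n)) (u : GaussianInt) :
    ∃ p : GaussianInt, S.A π u = ((S.N : ℝ)⁻¹ : ℝ) * (p : ℂ) :=
  ⟨S.push fun i => (u * star (S.a (π i))).re, by
    rw [A, push_cast']
    congr 2
    funext i
    exact rho_int u _⟩

end Side

end Pool.Agent.MP_caba0b_al.H43
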