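import Pool.Agent.MP_caba0b_al.H43.Defs

/-! Interface: definitions, small API and the statements of the modules. -/

namespace Pool.Agent.MP_caba0b_al.H43

open Equiv

universe u

/-! ### unitary groups and characters -/

abbrev U (n : ℕ) := Matrix.unitaryGroup (Fin n) ℂ

abbrev Wt (n : ℕ) := Fin n → ℤ

/-- a diagonal unitary matrix -/
noncomputable def diagU {n : ℕ} (x : Fin n → Circle) : U n :=
  ⟨Matrix.diagonal fun i => (x i : ℂ), by
    rw [Matrix.mem_unitaryGroup_iff, Matrix.star_eq_conjTranspose, Matrix.diagonal_conjTranspose,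
      Matrix.diagonal_mul_diagonal, ← Matrix.diagonal_one]
    congr 1
    funext i
    simp [Complex.mul_conj]⟩

/-- the trace of a unitary matrix -/
noncomputable def tr {n : ℕ} (g : U n) : ℂ := Matrix.trace (g : Matrix (Fin n) (Fin n) ℂ)

/-- the value of a multiset of weights at a point of the torus -/
noncomputable def chv {n : ℕ} (χ : Wt n →₀ ℕ) (x : Fin n → Circle) : ℂ :=
  χ.sum fun ν k => (k : ℂ) * ∏ i, (x i : ℂ) ^ ν i

/-- `χ` is the multiset of weights of a continuous unitary representation of `U n` -/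
def IsChar (n : ℕ) (χ : Wt n →₀ ℕ) : Prop :=
  ∃ (d : ℕ) (V : U n →* U d), Continuous V ∧ ∀ x, tr (V (diagU x)) = chv χ x

/-- the weights of the standard representation -/
noncomputable def std (n : ℕ) : Wt n →₀ ℕ := ∑ i, Finsupp.single (Pi.single i 1) 1

/-- the staircase weight -/
def del (n : ℕ) : Wt n := fun i => (i : ℕ)

/-- the coefficient of `x ^ ν` in the product of `f` with the Vandermonde alternant -/
noncomputable def adel {n : ℕ} (f : Wt n → ℝ) (ν : Wt n) : ℝ :=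
  ∑ π : Perm (Fin n), ((Perm.sign π : ℤ) : ℝ) * f (ν - del n ∘ π)

/-- the coefficient of `x ^ ν` in the alternant of `l` -/
noncomputable def alt {n : ℕ} (l ν : Wt n) : ℝ :=
  ∑ π : Perm (Fin n), if ν = l ∘ π then ((Perm.sign π : ℤ) : ℝ) else 0

/-- `χ` is `k` times the Schur function of `lam` -/
def Sch {n : ℕ} (lam : Wt n) (k : ℕ) (χ : Wt n →₀ ℕ) : Prop :=
  ∀ ν, adel (fun μ => (χ μ : ℝ)) ν = k * alt (lam + del n) ν

/-- Peter-Weyl -/
def PWStmt : Prop :=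
  ∀ (G : Type u) [Group G] [TopologicalSpace G] [IsTopologicalGroup G] [CompactSpace G] [T2Space G]
    (g : G), g ≠ 1 → ∃ (n : ℕ) (ρ : G →* U n), Continuous ρ ∧ ρ g ≠ 1

/-- a multiple of every Schur function is a character -/
def SchurStmt : Prop :=
  ∀ (n : ℕ) (lam : Wt n), Monotone lam → ∃ (k : ℕ) (χ : Wt n →₀ ℕ), 0 < k ∧ IsChar n χ ∧ Sch lam k χ

/-- unitary representations with the same character are unitarily equivalent -/
def EquivStmt : Prop :=
  ∀ (G : Type) [Group G] [TopologicalSpace G] [IsTopologicalGroup G] [CompactSpace G] [T2Space G]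
    (d : ℕ) (V W : G →* U d), Continuous V → Continuous W → (∀ g, tr (V g) = tr (W g)) →
    ∃ u : U d, ∀ g, V g = u * W g * u⁻¹

/-- simultaneous diagonalisation, and the continuous characters of the circle -/
def DiagStmt : Prop :=
  (∀ (H : Type) [CommGroup H] [TopologicalSpace H] (n : ℕ) (ρ : H →* U n), Continuous ρ →
    ∃ (u : U n) (χ : Fin n → H →* Circle), (∀ i, Continuous (χ i)) ∧
      ∀ h, ρ h = u * diagU (fun i => χ i h) * u⁻¹) ∧
  ∀ χ : Circle →* Circle, Continuous χ → ∃ k : ℤ, ∀ z, χ z = z ^ k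

/-- `A` is the semidirect product of the torus of rank two and the rotation of order four -/
structure Nice {A : Type} [Group A] [TopologicalSpace A] (ι : Circle × Circle →* A) (f : A) :
    Prop where
  cont : Continuous ι
  inj : Function.Injective ι
  four : f ^ 4 = 1
  conj : ∀ s t, f * ι (s, t) * f⁻¹ = ι (t⁻¹, s)
  gen : ∀ a, ∃ (x : Circle × Circle) (j : ℕ), a = ι x * f ^ j

def ExStmt : Prop :=
  ∃ (A : Type) (_ : Group A) (_ : TopologicalSpace A) (_ : IsTopologicalGroup A)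
    (_ : CompactSpace A) (_ : T2Space A) (ι : Circle × Circle →* A) (f : A), Nice ι f

/-- amalgamation of unitary groups -/
def RepStmt : Prop :=
  ∀ (A : Type) [Group A] [TopologicalSpace A] [IsTopologicalGroup A] [CompactSpace A] [T2Space A]
    (ι : Circle × Circle →* A) (f : A), Nice ι f → ∀ (n m : ℕ) (ρ : A →* U n) (σ : A →* U m),
    Continuous ρ → Function.Injective ρ → Continuous σ → Function.Injective σ →
    ∃ (d : ℕ) (V : U n →* U d) (W : U m →* U d), Continuous V ∧ Function.Injective V ∧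
      Continuous W ∧ Function.Injective W ∧ ∀ a, V (ρ a) = W (σ a)

def PosStmt : Prop :=
  ∀ (A : Type) [Group A] [TopologicalSpace A] [IsTopologicalGroup A] [CompactSpace A] [T2Space A]
    (ι : Circle × Circle →* A) (f : A), Nice ι f → Amalg.{u} A

def NegStmt : Prop :=
  ∀ (A : Type) [Group A] [TopologicalSpace A] [IsTopologicalGroup A] [CompactSpace A] [T2Space A]
    (ι : Circle × Circle →* A) (f : A), Nice ι f →
    ¬ Amalg.{u} (Subgroup.connectedComponentOfOne A)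

/-! ### the combinatorial core -/

/-- the weights of a faithful representation: `a` on the torus, `b` on the cyclic group -/
structure Side where
  n : ℕ
  a : Fin n → GaussianInt
  b : Fin n → ZMod 4
  N : ℕ
  hN : 0 < N
  tight : ∀ ξ : ℂ, ∑ i, ((ξ * (starRingEnd ℂ) (a i : ℂ)).re : ℂ) * (a i : ℂ) = N * ξ
  surj : ∀ μ : GaussianInt, ∃ ν : Wt n, ∑ i, ν i • a i = μ
  rot : ∃ π : Perm (Fin n), ∀ i, a (π i) = ⟨0, 1⟩ * a i
  odd : ∃ i, IsUnit (b i)

def Side.push (S : Side) (ν : Wt S.n) : GaussianInt := ∑ i, ν i • S.a i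

def Side.pb (S : Side) (ν : Wt S.n) : ZMod 4 := ∑ i, ν i • S.b i

/-- a class of multisets of weights with the closure properties of the class of characters -/
structure Cls (n : ℕ) (P : (Wt n →₀ ℕ) → Prop) : Prop where
  zero : P 0
  add : ∀ χ χ', P χ → P χ' → P (χ + χ')
  schur : ∀ lam : Wt n, Monotone lam → ∃ (k : ℕ) (χ : Wt n →₀ ℕ), 0 < k ∧ P χ ∧ Sch lam k χ

def CoreStmt : Prop :=
  ∀ (S S' : Side) (P : (Wt S.n →₀ ℕ) → Prop) (P' : (Wt S'.n →₀ ℕ) → Prop), Cls S.n P → Cls S'.n P' →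
    ∃ (k k' : ℕ) (χ : Wt S.n →₀ ℕ) (χ' : Wt S'.n →₀ ℕ), 0 < k ∧ 0 < k' ∧ P χ ∧ P' χ' ∧
      (k • std S.n + χ).mapDomain S.push = (k' • std S'.n + χ').mapDomain S'.push ∧
      (k • std S.n + χ).mapDomain S.pb = (k' • std S'.n + χ').mapDomain S'.pb

/-- squared Euclidean norm -/
noncomputable def nsq {n : ℕ} (ν : Wt n) : ℝ := ∑ i, (ν i : ℝ) ^ 2

/-- `ν` lies in the convex hull of the orbit of `lam` -/
def Dom {n : ℕ} (ν lam : Wt n) : Prop :=
  ∀ ξ : Fin n → ℝ, ∃ π : Perm (Fin n), ∑ i, ξ i * ν i ≤ ∑ i, ξ i * lam (π i)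

def Sym {n : ℕ} (f : Wt n →₀ ℝ) : Prop := ∀ (π : Perm (Fin n)) (ν : Wt n), f (ν ∘ π) = f ν

/-- `s` is the Schur function of `lam` -/
def IsS {n : ℕ} (lam : Wt n) (s : Wt n →₀ ℝ) : Prop := ∀ ν, adel s ν = alt (lam + del n) ν

/-- weighted sum of the absolute values of the coefficients -/
noncomputable def wn {Y : Type} (w : Y → ℝ) (x : Y →₀ ℝ) : ℝ := x.sum fun y v => |v| * w y

/-- facts on Schur functions -/
structure SymA (n : ℕ) : Prop where
  sym : ∀ (lam : Wt n) (s : Wt n →₀ ℝ), IsS lam s → Sym s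
  supp : ∀ (lam : Wt n) (s : Wt n →₀ ℝ), IsS lam s → ∀ ν, s ν ≠ 0 → Dom ν lam
  size : ∃ (C : ℝ) (e : ℕ), ∀ (lam : Wt n) (s : Wt n →₀ ℝ) (R : ℝ), IsS lam s → 1 ≤ R →
    nsq lam ≤ R ^ 2 → wn (fun _ => 1) s ≤ C * R ^ e
  expand : ∀ (s : Wt n → Wt n →₀ ℝ), (∀ lam, Monotone lam → IsS lam (s lam)) →
    ∀ (g : Wt n →₀ ℝ), Sym g → ∀ F : Finset (Wt n), (∀ lam ∈ F, Monotone lam) →
    (∀ lam, Monotone lam → adel g (lam + del n) ≠ 0 → lam ∈ F) →
    g = ∑ lam ∈ F, adel g (lam + del n) • s lam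

/-- facts on the staircase weight -/
structure SymB (n : ℕ) : Prop where
  gauss : ∀ (t : ℝ) (lam : Wt n), 0 ≤ t → Monotone lam →
    Real.exp (-(t * nsq lam)) * (1 - Real.exp (-(2 * t))) ^ (n ^ 2) ≤
      adel (fun ν => Real.exp (-(t * nsq ν))) (lam + del n)
  inv : ∀ (π : Perm (Fin n)) (ξ : Fin n → ℂ),
    ∑ i, ξ i * ((del n - del n ∘ π) i : ℤ) =
      ∑ p ∈ Finset.univ.filter (fun p : Fin n × Fin n => p.1 < p.2 ∧ π p.2 < π p.1),
        (ξ p.2 - ξ p.1)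
  dom : ∀ (lam : Wt n) (π : Perm (Fin n)), Monotone lam →
    Dom lam (lam + del n - del n ∘ π) ∧ nsq lam ≤ nsq (lam + del n - del n ∘ π)

/-- the space in which restricted characters are compared -/
abbrev X := (GaussianInt ⊕ ZMod 4) →₀ ℝ

noncomputable def Side.phi (S : Side) (ν : Wt S.n) : X :=
  Finsupp.single (Sum.inl (S.push ν)) 1 +
    ∑ c : ZMod 4, Finsupp.single (Sum.inr c) ((if S.pb ν = c then 1 else 0) - 1 / 4)

noncomputable def Side.Phi (S : Side) : (Wt S.n →₀ ℝ) →ₗ[ℝ] X := Finsupp.linearCombination ℝ S.phi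

noncomputable def nrm (τ : ℝ) : X → ℝ :=
  wn (Sum.elim (fun μ => Real.exp (τ * (μ.norm : ℝ))) fun _ => 1)

noncomputable def Side.cost (S : Side) (τ : ℝ) : (Wt S.n →₀ ℝ) → ℝ :=
  wn fun ν => Real.exp (τ * (S.N * nsq ν))

/-- the truncated Gaussian on the lattice of Gaussian integers -/
noncomputable def gaussH (τ : ℝ) (P : Finset GaussianInt) : X :=
  ∑ μ ∈ P, Finsupp.single (Sum.inl μ) (Real.exp (-(τ * (μ.norm : ℝ))))

/-- the truncated Gaussian on the weight lattice -/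
noncomputable def Side.gaussG (S : Side) (τ : ℝ) (Λ : Finset (Wt S.n)) : Wt S.n →₀ ℝ :=
  ∑ ν ∈ Λ, Finsupp.single ν (Real.exp (-(τ * (S.N * nsq ν))))

/-- the truncation regions -/
structure Adapt (S : Side) (κ R : ℝ) (P : Finset GaussianInt) (Λ : Finset (Wt S.n)) : Prop where
  ballP : ∀ μ ∈ P, (μ.norm : ℝ) ≤ R ^ 2
  ballL : ∀ ν ∈ Λ, S.N * nsq ν ≤ 4 * R ^ 2
  perm : ∀ ν ∈ Λ, ∀ π : Perm (Fin S.n), ν ∘ π ∈ Λ
  dom : ∀ lam ∈ Λ, ∀ ν, Dom ν lam → ν ∈ Λ
  pushP : ∀ ν ∈ Λ, S.push ν ∈ P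
  near : ∀ ν, S.push ν ∈ P → S.N * nsq ν - ((S.push ν).norm : ℝ) ≤ (κ * R) ^ 2 → ν ∈ Λ
  small : ∀ ν, S.N * nsq ν ≤ (κ * R) ^ 2 → ν ∈ Λ
  gap : ∀ lam ∈ Λ, Monotone lam → ∀ w π : Perm (Fin S.n), lam + del S.n - del S.n ∘ w ∉ Λ →
    κ * R ≤ S.N * nsq (lam + del S.n - del S.n ∘ w) - ((S.push (lam ∘ π)).norm : ℝ)

/-- the truncated Gaussian restricts to a multiple of the truncated Gaussian, up to a tiny error -/
def GaussStmt : Prop :=
  ∀ (S : Side) (κ : ℝ), 0 < κ → ∃ (c C : ℝ) (e : ℕ), 0 < c ∧ ∀ (r : ℝ) (P : Finset GaussianInt)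
    (Λ : Finset (Wt S.n)), 1 ≤ r → Adapt S κ (r ^ 2) P Λ → ∃ Z : ℝ, 1 ≤ Z ∧ Z ≤ C * r ^ e ∧
      nrm r⁻¹ (Z⁻¹ • S.Phi (S.gaussG r⁻¹ Λ) - gaussH r⁻¹ P) ≤ C * r ^ e * Real.exp (-(c * r))

/-- a Schur positive version -/
def SideStmt : Prop :=
  ∀ (S : Side) (κ : ℝ), 0 < κ → ∀ s : Wt S.n → Wt S.n →₀ ℝ,
    (∀ lam, Monotone lam → IsS lam (s lam)) →
    ∃ (c C : ℝ) (e : ℕ), 0 < c ∧ 0 < C ∧ ∀ (r : ℝ) (P : Finset GaussianInt)
      (Λ F : Finset (Wt S.n)), 1 ≤ r → Adapt S κ (r ^ 2) P Λ →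
      (∀ lam, lam ∈ F ↔ lam ∈ Λ ∧ Monotone lam) → ∃ α : Wt S.n → ℝ,
      (∀ lam ∈ F, Real.exp (-(r⁻¹ * (S.N * nsq lam))) ≤ C * r ^ e * α lam) ∧
      nrm r⁻¹ (S.Phi (∑ lam ∈ F, α lam • s lam) - gaussH r⁻¹ P) ≤ C * r ^ e * Real.exp (-(c * r))

/-- bounded right inverse of the comparison map -/
def InvStmt : Prop :=
  ∀ S S' : Side, ∃ κ C g r₀ : ℝ, 0 < κ ∧ 1 < g ∧ 1 ≤ r₀ ∧ ∀ k : ℕ,
    ∃ (P : Finset GaussianInt) (Λ : Finset (Wt S.n)) (Λ' : Finset (Wt S'.n)),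
      Adapt S κ ((r₀ * g ^ k) ^ 2) P Λ ∧ Adapt S' κ ((r₀ * g ^ k) ^ 2) P Λ' ∧
      ∀ τ : ℝ, 0 ≤ τ → τ ≤ 1 → ∀ (f : Wt S.n →₀ ℝ) (f' : Wt S'.n →₀ ℝ), Sym f → Sym f' →
        (∀ μ, (S.Phi f - S'.Phi f') (Sum.inl μ) ≠ 0 → μ ∈ P) →
        ∃ (y : Wt S.n →₀ ℝ) (y' : Wt S'.n →₀ ℝ), Sym y ∧ Sym y' ∧ y.support ⊆ Λ ∧
          y'.support ⊆ Λ' ∧ S.Phi y - S'.Phi y' = S.Phi f - S'.Phi f' ∧
          S.cost τ y + S'.cost τ y' ≤
            Real.exp (C * ((k : ℝ) + 1) ^ 2) * nrm τ (S.Phi f - S'.Phi f')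

/-! ### weighted norms -/

section wn

variable {Y Y' : Type} {w : Y → ℝ} {w' : Y' → ℝ}

lemma wn_eq_sum (x : Y →₀ ℝ) {F : Finset Y} (h : x.support ⊆ F) :
    wn w x = ∑ y ∈ F, |x y| * w y :=
  Finsupp.sum_of_support_subset x h _ fun _ _ => by simp

lemma wn_nonneg (hw : ∀ y, 0 ≤ w y) (x : Y →₀ ℝ) : 0 ≤ wn w x :=
  Finset.sum_nonneg fun y _ => mul_nonneg (abs_nonneg _) (hw y)

@[simp] lemma wn_zero : wn w 0 = 0 := by simp [wn]

@[simp] lemma wn_single (y : Y) (v : ℝ) : wn w (Finsupp.single y v) = |v| * w y := by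
  simp [wn]

lemma wn_add_le (hw : ∀ y, 0 ≤ w y) (x x' : Y →₀ ℝ) : wn w (x + x') ≤ wn w x + wn w x' := by
  classical
  rw [wn_eq_sum (x + x') Finsupp.support_add, wn_eq_sum x Finset.subset_union_left,
    wn_eq_sum x' Finset.subset_union_right, ← Finset.sum_add_distrib]
  refine Finset.sum_le_sum fun y _ => ?_
  rw [← add_mul]
  exact mul_le_mul_of_nonneg_right (abs_add_le _ _) (hw y)

lemma wn_smul (c : ℝ) (x : Y →₀ ℝ) : wn w (c • x) = |c| * wn w x := by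
  rw [wn_eq_sum (c • x) Finsupp.support_smul, wn_eq_sum x subset_rfl, Finset.mul_sum]
  exact Finset.sum_congr rfl fun y _ => by simp [abs_mul, mul_assoc]

lemma wn_neg (x : Y →₀ ℝ) : wn w (-x) = wn w x := by
  simpa using wn_smul (w := w) (-1) x

lemma wn_sub_le (hw : ∀ y, 0 ≤ w y) (x x' : Y →₀ ℝ) : wn w (x - x') ≤ wn w x + wn w x' := by
  rw [sub_eq_add_neg, ← wn_neg x']
  exact wn_add_le hw _ _

lemma wn_sum_le (hw : ∀ y, 0 ≤ w y) {ι : Type*} (F : Finset ι) (x : ι → Y →₀ ℝ) :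
    wn w (∑ i ∈ F, x i) ≤ ∑ i ∈ F, wn w (x i) := by
  classical
  induction F using Finset.induction_on with
  | empty => simp
  | insert a F ha ih =>
    rw [Finset.sum_insert ha, Finset.sum_insert ha]
    exact (wn_add_le hw _ _).trans (by linarith)

lemma abs_mul_le_wn (hw : ∀ y, 0 ≤ w y) (x : Y →₀ ℝ) (y : Y) : |x y| * w y ≤ wn w x := by
  by_cases h : y ∈ x.support
  · exact Finset.single_le_sum (f := fun y => |x y| * w y)
      (fun y _ => mul_nonneg (abs_nonneg _) (hw y)) h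
  · rw [Finsupp.notMem_support_iff.1 h]
    simpa using wn_nonneg hw x

lemma wn_mono {w₂ : Y → ℝ} {x : Y →₀ ℝ} (h : ∀ y, x y ≠ 0 → w y ≤ w₂ y) : wn w x ≤ wn w₂ x :=
  Finset.sum_le_sum fun y hy =>
    mul_le_mul_of_nonneg_left (h y (Finsupp.mem_support_iff.1 hy)) (abs_nonneg _)

lemma wn_const_mul (c : ℝ) (x : Y →₀ ℝ) : wn (fun y => c * w y) x = c * wn w x := by
  simp only [wn, Finsupp.sum, Finset.mul_sum]
  exact Finset.sum_congr rfl fun y _ => by ring

lemma wn_lc_le (hw : ∀ y, 0 ≤ w y) (φ : Y' → Y →₀ ℝ) (f : Y' →₀ ℝ) :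
    wn w (Finsupp.linearCombination ℝ φ f) ≤ wn (fun ν => wn w (φ ν)) f := by
  rw [Finsupp.linearCombination_apply, Finsupp.sum]
  exact (wn_sum_le hw _ _).trans_eq (Finset.sum_congr rfl fun ν _ => wn_smul _ _)

end wn

/-! ### block sums of unitary matrices -/

section bsum

variable {d e : ℕ}

/-- block diagonal sum -/
noncomputable def bsum (d e : ℕ) : U d × U e →* U (d + e) where
  toFun p := ⟨Matrix.reindex finSumFinEquiv finSumFinEquiv (Matrix.fromBlocks p.1.1 0 0 p.2.1), by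
    have h1 := Matrix.mem_unitaryGroup_iff.1 p.1.2
    have h2 := Matrix.mem_unitaryGroup_iff.1 p.2.2
    rw [Matrix.star_eq_conjTranspose] at h1 h2
    rw [Matrix.mem_unitaryGroup_iff, Matrix.star_eq_conjTranspose, Matrix.conjTranspose_reindex,
      Matrix.reindex_apply, Matrix.reindex_apply, Matrix.submatrix_mul_equiv,
      Matrix.fromBlocks_conjTranspose, Matrix.fromBlocks_multiply]
    simp [h1, h2]⟩
  map_one' := Subtype.ext (by simp)
  map_mul' p q := Subtype.ext (by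
    simp [Matrix.submatrix_mul_equiv, Matrix.fromBlocks_multiply])

lemma bsum_val (p : U d × U e) : (bsum d e p : Matrix _ _ ℂ) =
    Matrix.reindex finSumFinEquiv finSumFinEquiv (Matrix.fromBlocks p.1.1 0 0 p.2.1) := rfl

lemma continuous_bsum : Continuous (bsum d e) := by
  refine Continuous.subtype_mk ?_ _
  refine Continuous.matrix_reindex ?_ _ _
  exact Continuous.matrix_fromBlocks (continuous_subtype_val.comp continuous_fst) continuous_const
    continuous_const (continuous_subtype_val.comp continuous_snd)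

lemma bsum_injective : Function.Injective (bsum d e) := by
  intro p q h
  have h1 := (Matrix.reindex finSumFinEquiv finSumFinEquiv).injective (congrArg Subtype.val h)
  obtain ⟨h2, -, -, h3⟩ := Matrix.fromBlocks_inj.1 h1
  exact Prod.ext (Subtype.ext h2) (Subtype.ext h3)

lemma tr_bsum (p : U d × U e) : tr (bsum d e p) = tr p.1 + tr p.2 := by
  rw [tr, bsum_val, Matrix.trace, ← finSumFinEquiv.sum_comp]
  simp [tr, Matrix.trace, Fintype.sum_sum_type]

lemma tr_conj (u g : U d) : tr (u * g * u⁻¹) = tr g := by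
  have h : ((u⁻¹ : U d) : Matrix (Fin d) (Fin d) ℂ) * u = 1 := by
    rw [← Submonoid.coe_mul, inv_mul_cancel, Submonoid.coe_one]
  rw [tr, Submonoid.coe_mul, Submonoid.coe_mul, Matrix.trace_mul_comm, ← mul_assoc, h, one_mul, tr]

instance : CompactSpace (U d) := by
  refine isCompact_iff_compactSpace.1
    (?_ : IsCompact (Matrix.unitaryGroup (Fin d) ℂ : Set (Matrix (Fin d) (Fin d) ℂ)))
  have hc := isClosed_unitary (R := Matrix (Fin d) (Fin d) ℂ)
  refine (isCompact_univ_pi fun _ : Fin d => isCompact_univ_pi fun _ : Fin d =>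
    isCompact_closedBall (0 : ℂ) 1).of_isClosed_subset hc fun g hg i _ j _ => ?_
  simpa using entry_norm_bound_of_unitary hg i j

end bsum

end Pool.Agent.MP_caba0b_al.H43
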