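import Pool.Agent.MP_caba0b_al.H43.Geo

/-! Interface for the bounded inverse. -/

namespace Pool.Agent.MP_caba0b_al.H43

open Equiv

/-- classification of the permutations of the weights -/
structure Side.Geo (S : Side) (m : ℕ) (ε : ℝ) : Prop where
  cls : ∀ π : Perm (Fin S.n), (∃ ζ s, S.Glob π ζ s) ∨ (∀ ξ, ‖S.A π ξ‖ ^ 2 ≤ (1 - ε) * ‖ξ‖ ^ 2) ∨
    ∃ u v : GaussianInt, Ex m u ∧ Ex m v ∧ S.Fuse π u v ∧
      ∀ ξ, cr (S.A π ξ) (un v) ^ 2 ≤ (1 - ε) * cr ξ (un u) ^ 2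
  wall : ∀ i j, (S.a i - S.a j).norm ≤ m

/-- the constants -/
structure Cst (m : ℕ) (ε c η κ : ℝ) : Prop where
  hm : 1 ≤ m
  e0 : 0 < ε
  sep : ε * m ^ 2 ≤ 1
  c0 : 0 < c
  c1 : c < 1
  c2 : 1 / 2 ≤ c ^ 2
  c3 : 1 - ε / 4 ≤ c
  k0 : 0 < κ
  η0 : 0 < η
  h1 : 1 - ε / 2 + κ ≤ c ^ 2
  h2 : 1 - ε ^ 3 / 128 + 3 * κ ≤ c ^ 4
  h3 : η ^ 2 ≤ 1 - c ^ 2
  h4 : η ≤ ε / 16
  h5 : 3 * κ ≤ ε * η

/-- the disc of radius `R` with the caps in the exceptional directions cut off -/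
def inP (m : ℕ) (c R : ℝ) (z : ℂ) : Prop := ‖z‖ ≤ R ∧ ∀ u, Ex m u → ip z (un u) ≤ c * R

/-- the admissible weights at scale `R` -/
def Side.L (S : Side) (m : ℕ) (c R : ℝ) (ν : Wt S.n) : Prop :=
  (∀ π : Perm (Fin S.n), inP m c R (S.push (ν ∘ π))) ∧ S.N * nsq ν ≤ 4 * R ^ 2

/-- the region at scale `R`: the smaller region and the strips of half width `δ` -/
def Om (m : ℕ) (c R δ : ℝ) (μ : GaussianInt) : Prop :=
  inP m c (c * R) μ ∨ (inP m c R μ ∧ ∃ u, Ex m u ∧ |cr μ (un u)| ≤ δ)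

/-- existence of the constants -/
def ClsStmt : Prop :=
  ∀ S S' : Side, ∃ (m : ℕ) (ε c η κ : ℝ), S.Geo m ε ∧ S'.Geo m ε ∧ Cst m ε c η κ

/-- plane geometry -/
structure Plane (m : ℕ) (ε c η : ℝ) : Prop where
  mono : ∀ {R R' : ℝ} {z : ℂ}, R ≤ R' → inP m c R z → inP m c R' z
  act : ∀ {R : ℝ} {z : ℂ} {ζ : GaussianInt} (s : Bool), ζ.norm = 1 → inP m c R z →
    inP m c R (actC ζ s z)
  ball : ∀ {R : ℝ} {z : ℂ}, ‖z‖ ≤ c * R → inP m c R z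
  other : ∀ {u v : GaussianInt} (z : ℂ), Ex m u → Ex m v → v ≠ u → v ≠ -u →
    ip z (un v) ≤ (1 - ε / 2) * |ip z (un u)| + |cr z (un u)|
  strip : ∀ {R : ℝ} {z : ℂ} {u : GaussianInt}, Ex m u → |ip z (un u)| ≤ c * R →
    |cr z (un u)| ≤ η * R → inP m c R z
  two : ∀ {δ : ℝ} {z : ℂ} {u v : GaussianInt}, Ex m u → Ex m v → v ≠ u → v ≠ -u →
    |cr z (un u)| ≤ δ → |cr z (un v)| ≤ δ → ε * ‖z‖ ≤ 3 * δ

/-- the images of an admissible weight near the image of the plane -/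
def Side.G12 (S : Side) (m : ℕ) (ε c κ : ℝ) : Prop :=
  ∀ (R D : ℝ) (ν : Wt S.n), 0 ≤ D → D ≤ κ * R → inP m c R (S.push ν) →
    S.N * nsq ν - ((S.push ν).norm : ℝ) ≤ D ^ 2 → S.L m c R ν ∧ ∀ π : Perm (Fin S.n),
      (∃ ζ s, S.Glob π ζ s) ∨ inP m c (c * R) (S.push (ν ∘ π)) ∨
        ∃ u v : GaussianInt, Ex m u ∧ Ex m v ∧ S.Fuse π u v ∧
          |cr (S.push ν) (un u)| ≤ ε / 8 * R ∧
          |cr (S.push (ν ∘ π)) (un v)| ≤ (1 - ε / 2) * |cr (S.push ν) (un u)| + D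

def GeomStmt : Prop :=
  ∀ (m : ℕ) (ε c η κ : ℝ), Cst m ε c η κ → Plane m ε c η ∧ ∀ S : Side, S.Geo m ε → S.G12 m ε c κ

/-- the regions are adapted -/
def AdaptStmt : Prop :=
  ∀ (m : ℕ) (ε c η κ : ℝ), Cst m ε c η κ → Plane m ε c η → ∀ S : Side, S.Geo m ε → S.G12 m ε c κ →
    ∃ κ' R₀ : ℝ, 0 < κ' ∧ ∀ (κ'' R : ℝ) (P : Finset GaussianInt) (Λ : Finset (Wt S.n)),
      0 < κ'' → κ'' ≤ κ' → R₀ ≤ R → (∀ μ, μ ∈ P ↔ inP m c R μ) → (∀ ν, ν ∈ Λ ↔ S.L m c R ν) →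
      Adapt S κ'' R P Λ

/-- orbit sums -/
noncomputable def msym {n : ℕ} (ν : Wt n) : Wt n →₀ ℝ :=
  ∑ π : Perm (Fin n), Finsupp.single (ν ∘ π) 1

/-- differences of restrictions of symmetric functions -/
def Im (S S' : Side) (x : X) : Prop :=
  ∃ (f : Wt S.n →₀ ℝ) (f' : Wt S'.n →₀ ℝ), Sym f ∧ Sym f' ∧ S.Phi f - S'.Phi f' = x

/-- a representation with admissible weights and controlled cost -/
def Rep (S S' : Side) (m : ℕ) (c R τ : ℝ) (x : X) (K : ℝ) : Prop :=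
  ∃ (y : Wt S.n →₀ ℝ) (y' : Wt S'.n →₀ ℝ), Sym y ∧ Sym y' ∧ (∀ ν, y ν ≠ 0 → S.L m c R ν) ∧
    (∀ ν, y' ν ≠ 0 → S'.L m c R ν) ∧ S.Phi y - S'.Phi y' = x ∧ S.cost τ y + S'.cost τ y' ≤ K

/-- an elimination step from the region `Ω'` to the region `Ω` -/
def Step (S S' : Side) (m : ℕ) (c R : ℝ) (Ω' Ω : GaussianInt → Prop) (C : ℝ) : Prop :=
  ∀ τ : ℝ, 0 ≤ τ → τ ≤ 1 → ∀ x : X, Im S S' x → (∀ μ, x (Sum.inl μ) ≠ 0 → Ω' μ) →
    ∃ z : X, Rep S S' m c R τ z (C * nrm τ x) ∧ ∀ μ, (x - z) (Sum.inl μ) ≠ 0 → Ω μ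

/-- bounded solutions of linear systems on a finite set of coordinates -/
def LAStmt : Prop :=
  ∀ (I Y : Type) (v : I → Y →₀ ℝ) (T : Set I) (Y₀ : Set Y), Y₀.Finite →
    ∃ (I₀ : Finset I) (C : ℝ), 0 ≤ C ∧ (∀ i ∈ I₀, i ∈ T) ∧ ∀ x ∈ Submodule.span ℝ (v '' T),
      (∀ y, x y ≠ 0 → y ∈ Y₀) → ∃ a : I →₀ ℝ, a.support ⊆ I₀ ∧
        Finsupp.linearCombination ℝ v a = x ∧ wn (fun _ => 1) a ≤ C * wn (fun _ => 1) x

/-- elimination of the strips -/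
def StepBStmt : Prop :=
  ∀ (S S' : Side) (m : ℕ) (ε c η κ : ℝ), Cst m ε c η κ → Plane m ε c η → S.G12 m ε c κ →
    S'.G12 m ε c κ → ∀ δ : ℝ, 0 ≤ δ → ∃ C R₀ : ℝ, 0 ≤ C ∧ ∀ R, R₀ ≤ R →
      Step S S' m c R (Om m c R δ) (fun μ => inP m c (c * R) μ) C

/-- narrowing of the strips -/
def StepAStmt : Prop :=
  ∀ (S S' : Side) (m : ℕ) (ε c η κ : ℝ), Cst m ε c η κ → Plane m ε c η → S.G12 m ε c κ →
    (∀ π ζ s, S.Glob π ζ s → ∃ π', S'.Glob π' ζ s) →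
    ∃ C D R₀ : ℝ, 0 ≤ C ∧ 0 ≤ D ∧ ∀ R δ δ' : ℝ, R₀ ≤ R → (1 - ε / 2) * δ + D ≤ δ' →
      Step S S' m c R (Om m c R δ) (Om m c R δ') C

section api

variable {n : ℕ}

lemma Sym.add {f g : Wt n →₀ ℝ} (hf : Sym f) (hg : Sym g) : Sym (f + g) := fun π ν => by
  simp [hf π ν, hg π ν]

lemma Sym.smul {f : Wt n →₀ ℝ} (hf : Sym f) (t : ℝ) : Sym (t • f) := fun π ν => by
  simp [hf π ν]

lemma Sym.neg {f : Wt n →₀ ℝ} (hf : Sym f) : Sym (-f) := fun π ν => by simp [hf π ν]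

lemma Sym.sub {f g : Wt n →₀ ℝ} (hf : Sym f) (hg : Sym g) : Sym (f - g) := fun π ν => by
  simp [hf π ν, hg π ν]

lemma sym_zero : Sym (0 : Wt n →₀ ℝ) := fun _ _ => rfl

lemma sym_sum {ι : Type*} (F : Finset ι) {f : ι → Wt n →₀ ℝ} (h : ∀ i ∈ F, Sym (f i)) :
    Sym (∑ i ∈ F, f i) := fun π ν => by
  simp only [Finsupp.finsetSum_apply]
  exact Finset.sum_congr rfl fun i hi => h i hi π ν

lemma sym_msym (ν : Wt n) : Sym (msym ν) := fun σ μ => by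
  classical
  simp only [msym, Finsupp.finsetSum_apply, Finsupp.single_apply]
  rw [← Equiv.sum_comp (Equiv.mulRight σ)]
  refine Finset.sum_congr rfl fun π _ => if_congr ⟨fun h => ?_, fun h => ?_⟩ rfl rfl
  · funext i
    simpa using congrFun h (σ⁻¹ i)
  · rw [← h]; rfl

lemma msym_ne {ν μ : Wt n} (h : msym ν μ ≠ 0) : ∃ π : Perm (Fin n), μ = ν ∘ π := by
  classical
  simp only [msym, Finsupp.finsetSum_apply] at h
  obtain ⟨π, _, hπ⟩ := Finset.exists_ne_zero_of_sum_ne_zero h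
  exact ⟨π, (Finsupp.single_apply_ne_zero.1 hπ).1⟩

lemma Sym.eq_sum {f : Wt n →₀ ℝ} (hf : Sym f) :
    f = ∑ ν ∈ f.support, (f ν / n.factorial) • msym ν := by
  classical
  ext μ
  have hn : (n.factorial : ℝ) ≠ 0 := by exact_mod_cast n.factorial_ne_zero
  simp only [msym, Finsupp.finsetSum_apply, Finsupp.smul_apply, Finsupp.single_apply, smul_eq_mul,
    Finset.mul_sum]
  rw [Finset.sum_comm]
  have : ∀ π : Perm (Fin n), (∑ ν ∈ f.support, f ν / n.factorial * if ν ∘ π = μ then 1 else 0) =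
      f μ / n.factorial := by
    intro π
    rw [Finset.sum_eq_single (μ ∘ π.symm)]
    · rw [if_pos (by funext i; simp), hf, mul_one]
    · intro ν _ hν
      rw [if_neg, mul_zero]
      rintro rfl
      exact hν (by funext i; simp)
    · intro h
      rw [Finsupp.notMem_support_iff.1 h]
      simp
  simp only [this, Finset.sum_const, Finset.card_univ, Fintype.card_perm, Fintype.card_fin,
    nsmul_eq_mul]
  field_simp

lemma nsq_perm (ν : Wt n) (π : Perm (Fin n)) : nsq (ν ∘ π) = nsq ν :=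
  Equiv.sum_comp π fun i => (ν i : ℝ) ^ 2

lemma nsq_nonneg (ν : Wt n) : 0 ≤ nsq ν := Finset.sum_nonneg fun _ _ => sq_nonneg _

lemma Side.L.perm {S : Side} {m : ℕ} {c R : ℝ} {ν : Wt S.n} (h : S.L m c R ν)
    (π : Perm (Fin S.n)) : S.L m c R (ν ∘ π) :=
  ⟨fun σ => h.1 (π * σ), by rw [nsq_perm]; exact h.2⟩

lemma Side.norm_push_le (S : Side) (ν : Wt S.n) : ((S.push ν).norm : ℝ) ≤ S.N * nsq ν := by
  rw [norm_gi, Side.push_cast']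
  exact Side.norm_pR_le (fun i => ν i) 1

lemma Side.df_cast (S : Side) (ν : Wt S.n) :
    S.df (fun i => ν i) = S.N * nsq ν - ((S.push ν).norm : ℝ) := by
  rw [norm_gi, Side.push_cast']; rfl

lemma Side.cost_msym (S : Side) (τ : ℝ) (ν : Wt S.n) :
    S.cost τ (msym ν) ≤ S.n.factorial * Real.exp (τ * (S.N * nsq ν)) := by
  refine (wn_sum_le (fun _ => (Real.exp_pos _).le) _ _).trans_eq ?_
  simp [nsq_perm, Fintype.card_perm]

open Classical in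
lemma Side.phi_inl (S : Side) (ν : Wt S.n) (μ : GaussianInt) :
    S.phi ν (Sum.inl μ) = if S.push ν = μ then 1 else 0 := by
  simp [Side.phi, Finsupp.single_apply]

open Classical in
lemma Side.Phi_msym_inl (S : Side) (ν : Wt S.n) (μ : GaussianInt) :
    S.Phi (msym ν) (Sum.inl μ) = ∑ π : Perm (Fin S.n), if S.push (ν ∘ π) = μ then 1 else 0 := by
  simp [msym, Side.Phi, Finsupp.finsetSum_apply, Side.phi_inl]

lemma nrm_w_nonneg (τ : ℝ) (y : GaussianInt ⊕ ZMod 4) :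
    0 ≤ Sum.elim (fun μ : GaussianInt => Real.exp (τ * (μ.norm : ℝ))) (fun _ => 1) y := by
  cases y
  · exact (Real.exp_pos _).le
  · exact zero_le_one

lemma nrm_nonneg (τ : ℝ) (x : X) : 0 ≤ nrm τ x := wn_nonneg (nrm_w_nonneg τ) x

lemma Side.nrm_Phi_le (S : Side) {τ : ℝ} (hτ : 0 ≤ τ) (y : Wt S.n →₀ ℝ) :
    nrm τ (S.Phi y) ≤ 5 * S.cost τ y := by
  refine (wn_lc_le (nrm_w_nonneg τ) _ _).trans ?_
  rw [Side.cost, ← wn_const_mul]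
  refine wn_mono fun ν _ => (wn_add_le (nrm_w_nonneg τ) _ _).trans ?_
  have h1 : Real.exp (τ * ((S.push ν).norm : ℝ)) ≤ Real.exp (τ * (S.N * nsq ν)) :=
    Real.exp_le_exp.2 (mul_le_mul_of_nonneg_left (S.norm_push_le ν) hτ)
  have h2 : 1 ≤ Real.exp (τ * (S.N * nsq ν)) :=
    Real.one_le_exp (mul_nonneg hτ (mul_nonneg (Nat.cast_nonneg _) (nsq_nonneg ν)))
  have h3 := wn_sum_le (nrm_w_nonneg τ) Finset.univ fun c : ZMod 4 =>
    Finsupp.single (Sum.inr c) ((if S.pb ν = c then (1 : ℝ) else 0) - 1 / 4)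
  have h4 : ∑ c : ZMod 4, wn (Sum.elim (fun μ : GaussianInt => Real.exp (τ * (μ.norm : ℝ)))
      fun _ => 1) (Finsupp.single (Sum.inr c) ((if S.pb ν = c then (1 : ℝ) else 0) - 1 / 4)) ≤
      ∑ _c : ZMod 4, (1 : ℝ) := Finset.sum_le_sum fun c _ => by
    rw [wn_single, Sum.elim_inr, mul_one]
    split_ifs <;> norm_num [abs_le]
  rw [wn_single, Sum.elim_inl, abs_one, one_mul]
  simp only [Finset.sum_const, Finset.card_univ, ZMod.card, nsmul_eq_mul] at h4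
  push_cast at h4
  linarith

end api

end Pool.Agent.MP_caba0b_al.H43
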