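import Pool.Agent.MP_caba0b_al.H43.Inv0

/-! Elimination of the strips. -/

namespace Pool.Agent.MP_caba0b_al.H43

open Equiv Classical

lemma finite_ex (m : ℕ) : {u | Ex m u}.Finite :=
  (finite_norm_le m).subset fun _ hu => by
    have := hu.2
    exact Set.mem_ofPred.2 (by exact_mod_cast this)

noncomputable def ExF (m : ℕ) : Finset GaussianInt := (finite_ex m).toFinset

lemma mem_ExF {m : ℕ} {u : GaussianInt} : u ∈ ExF m ↔ Ex m u := by simp [ExF]

noncomputable def UF (m : ℕ) (M : ℤ) : Finset GaussianInt := (ExF m).filter fun u => u.norm = M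

lemma mem_UF {m : ℕ} {M : ℤ} {u : GaussianInt} : u ∈ UF m M ↔ Ex m u ∧ u.norm = M := by
  simp [UF, mem_ExF]

def ipZ (μ u : GaussianInt) : ℤ := (μ * star u).re

lemma ipZ_cast (μ u : GaussianInt) : (ipZ μ u : ℝ) = ip μ u := by simp [ipZ, ip_eq]

lemma ip_un (μ u : GaussianInt) : ip μ (un u) = ipZ μ u / √(u.norm : ℝ) := by
  rw [un, ip_smul, ipZ_cast, norm_gi, Real.sqrt_sq (norm_nonneg _), div_eq_inv_mul]

lemma ipZ_shift (μ u : GaussianInt) (t : ℤ) : ipZ (μ + t • u) u = ipZ μ u + t * u.norm := by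
  simp [ipZ, Zsqrtd.norm_def]; ring

lemma cr_shift (μ u : GaussianInt) (t : ℤ) :
    cr ((μ + t • u : GaussianInt) : ℂ) (un u) = cr μ (un u) := by
  simp [un, cr_eq]; ring

def dot {n : ℕ} (ν ω : Wt n) : ℤ := ∑ i, ν i * ω i

lemma dot_perm {n : ℕ} (ν ω : Wt n) (π : Perm (Fin n)) : dot (ν ∘ π) (ω ∘ π) = dot ν ω :=
  Equiv.sum_comp π fun i => ν i * ω i

abbrev Y2 := (GaussianInt × GaussianInt) →₀ ℝ

lemma ite_single_apply (p : Prop) [Decidable p] (u' μ' u μ : GaussianInt) :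
    (if p then Finsupp.single (u', μ') (1 : ℝ) else 0 : Y2) (u, μ) =
      if u' = u then (if p ∧ μ' = μ then 1 else 0) else 0 := by
  by_cases h1 : p <;> by_cases h2 : u' = u <;> by_cases h3 : μ' = μ <;> simp [h1, h2, h3]

/-- restriction to the lines at height `h` -/
noncomputable def Res (m : ℕ) (M h : ℤ) : X →ₗ[ℝ] Y2 :=
  Finsupp.linearCombination ℝ (Sum.elim
    (fun μ => ∑ u ∈ UF m M, if ipZ μ u = h then Finsupp.single (u, μ) 1 else 0) fun _ => 0)

lemma Res_apply (m : ℕ) (M h : ℤ) (x : X) (u μ : GaussianInt) :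
    Res m M h x (u, μ) = if u ∈ UF m M ∧ ipZ μ u = h then x (Sum.inl μ) else 0 := by
  induction x using Finsupp.induction_linear with
  | zero => simp
  | add x y hx hy => rw [map_add, Finsupp.add_apply, hx, hy]; split_ifs <;> simp
  | single y t =>
    rw [Res, Finsupp.linearCombination_single]
    cases y with
    | inr c => simp
    | inl μ' =>
      simp only [Sum.elim_inl, Finsupp.smul_apply, Finsupp.finsetSum_apply, smul_eq_mul,
        ite_single_apply, Finset.sum_ite_eq', Finsupp.single_apply, Sum.inl.injEq]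
      by_cases h1 : μ' = μ
      · subst h1
        by_cases h2 : ipZ μ' u = h <;> by_cases h3 : u ∈ UF m M <;> simp [h2, h3]
      · simp [h1]

def sh (t : ℤ) (p : GaussianInt × GaussianInt) : GaussianInt × GaussianInt := (p.1, p.2 + t • p.1)

lemma sh_neg (t : ℤ) (p : GaussianInt × GaussianInt) : sh t (sh (-t) p) = p := by simp [sh]

lemma sh_inj (t : ℤ) : Function.Injective (sh t) := fun p q h => by
  have := congrArg (sh (-t)) h
  simpa [sh] using this

namespace Side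

variable (S : Side)

def rhoZ (u : GaussianInt) : Wt S.n := fun i => (u * star (S.a i)).re

noncomputable def face (m : ℕ) (M : ℤ) (p : Wt S.n × Wt S.n) : Y2 :=
  ∑ u ∈ UF m M, ∑ π : Perm (Fin S.n),
    if p.1 ∘ π = S.rhoZ u then Finsupp.single (u, S.push (p.2 ∘ π)) 1 else 0

def Valid (m : ℕ) (M h : ℤ) (p : Wt S.n × Wt S.n) : Prop :=
  (∃ u ∈ UF m M, ∃ π : Perm (Fin S.n), p.1 ∘ π = S.rhoZ u) ∧ dot p.2 p.1 = h

variable {S}

lemma rhoZ_cast (u : GaussianInt) : (fun i => (S.rhoZ u i : ℝ)) = S.rho u :=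
  funext fun i => (rho_int u i).symm

lemma push_rhoZ (u : GaussianInt) : S.push (S.rhoZ u) = (S.N : ℤ) • u := by
  rw [← GaussianInt.toComplex_inj, push_cast', rhoZ_cast, pR_rho]
  simp

lemma rhoZ_inj {u v : GaussianInt} (h : S.rhoZ u = S.rhoZ v) : u = v := by
  have := congrArg S.push h
  rw [push_rhoZ, push_rhoZ] at this
  exact smul_right_injective _ (by exact_mod_cast S.hN.ne') this

lemma ipZ_push (ν : Wt S.n) (u : GaussianInt) : ipZ (S.push ν) u = dot ν (S.rhoZ u) := by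
  have : (ipZ (S.push ν) u : ℝ) = dot ν (S.rhoZ u) := by
    rw [ipZ_cast, push_cast', ip_pR, ← rhoZ_cast, dot]
    push_cast
    rfl
  exact_mod_cast this

lemma push_add_smul (ν ω : Wt S.n) (k : ℤ) : S.push (ν + k • ω) = S.push ν + k • S.push ω := by
  simp [push, add_mul, Finset.sum_add_distrib, Finset.mul_sum, mul_assoc]

lemma dot_self {ω : Wt S.n} {u : GaussianInt} {π : Perm (Fin S.n)} (h : ω ∘ π = S.rhoZ u) :
    dot ω ω = S.N * u.norm := by
  rw [← dot_perm ω ω π, h, ← ipZ_push, push_rhoZ]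
  simpa [ipZ] using ipZ_shift 0 u S.N

lemma face_apply (m : ℕ) (M : ℤ) (p : Wt S.n × Wt S.n) (u μ : GaussianInt) :
    S.face m M p (u, μ) = if u ∈ UF m M then ∑ π : Perm (Fin S.n),
      if p.1 ∘ π = S.rhoZ u ∧ S.push (p.2 ∘ π) = μ then 1 else 0 else 0 := by
  simp only [face, Finsupp.finsetSum_apply, ite_single_apply]
  rw [← Finset.sum_ite_eq' (UF m M) u fun u => ∑ π : Perm (Fin S.n),
      if p.1 ∘ π = S.rhoZ u ∧ S.push (p.2 ∘ π) = μ then (1 : ℝ) else 0]
  refine Finset.sum_congr rfl fun u' _ => ?_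
  split_ifs <;> simp

lemma res_msym (m : ℕ) (M h : ℤ) (lam : Wt S.n) :
    Res m M h (S.Phi (msym lam)) ∈ Submodule.span ℝ (S.face m M '' {p | S.Valid m M h p}) := by
  let W : Finset (Wt S.n) := ((UF m M ×ˢ (Finset.univ : Finset (Perm (Fin S.n)))).image
    fun q => S.rhoZ q.1 ∘ q.2.symm).filter fun ω => dot lam ω = h
  have e : Res m M h (S.Phi (msym lam)) = ∑ ω ∈ W, S.face m M (ω, lam) := by
    ext ⟨u, μ⟩
    rw [Res_apply, Phi_msym_inl]
    simp only [Finsupp.finsetSum_apply, face_apply]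
    by_cases hu : u ∈ UF m M
    · simp only [hu, true_and, if_true]
      rw [Finset.sum_comm, ← Finset.sum_const_zero (s := Finset.univ (α := Perm (Fin S.n))),
        ← Finset.sum_ite_irrel]
      refine Finset.sum_congr rfl fun π _ => ?_
      have e1 : ∀ ω : Wt S.n, ω ∘ π = S.rhoZ u ↔ ω = S.rhoZ u ∘ π.symm := fun ω =>
        ⟨fun h => by rw [← h]; funext i; simp, fun h => by rw [h]; funext i; simp⟩
      have e2 : S.rhoZ u ∘ π.symm ∈ W ↔ ipZ (S.push (lam ∘ π)) u = h := by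
        rw [ipZ_push, ← (e1 _).2 rfl, dot_perm, (e1 _).2 rfl, Finset.mem_filter]
        exact and_iff_right (Finset.mem_image.2 ⟨(u, π), by simp [hu], rfl⟩)
      simp only [e1, ite_and]
      by_cases h1 : S.push (lam ∘ π) = μ
      · rw [h1] at e2
        simp [h1, e2]
      · simp [h1]
    · simp [hu]
  rw [e]
  refine Submodule.sum_mem _ fun ω hω => Submodule.subset_span ⟨_, ⟨?_, ?_⟩, rfl⟩
  · obtain ⟨q, hq, rfl⟩ := Finset.mem_image.1 (Finset.mem_filter.1 hω).1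
    exact ⟨q.1, (Finset.mem_product.1 hq).1, q.2, by funext i; simp⟩
  · exact (Finset.mem_filter.1 hω).2

lemma sh_face (m : ℕ) (M k : ℤ) (p : Wt S.n × Wt S.n) :
    (S.face m M p).mapDomain (sh (k * S.N)) = S.face m M (p.1, p.2 + k • p.1) := by
  simp only [face, Finsupp.mapDomain_finsetSum]
  refine Finset.sum_congr rfl fun u _ => Finset.sum_congr rfl fun π _ => ?_
  split_ifs with h
  · rw [Finsupp.mapDomain_single, show (p.2 + k • p.1) ∘ π = p.2 ∘ π + k • (p.1 ∘ π) from rfl,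
      push_add_smul, h, push_rhoZ, sh, mul_smul]
  · exact Finsupp.mapDomain_zero

lemma Valid.dot {m : ℕ} {M h : ℤ} {p : Wt S.n × Wt S.n} (hp : S.Valid m M h p) :
    dot p.1 p.1 = S.N * M := by
  obtain ⟨⟨u, hu, π, hπ⟩, _⟩ := hp
  rw [dot_self hπ, (mem_UF.1 hu).2]

lemma dot_add_smul {n : ℕ} (ν ω ξ : Wt n) (k : ℤ) : dot (ν + k • ω) ξ = dot ν ξ + k * dot ω ξ := by
  simp [dot, add_mul, Finset.sum_add_distrib, Finset.mul_sum, mul_assoc]

lemma Valid.sh {m : ℕ} {M h : ℤ} {p : Wt S.n × Wt S.n} (hp : S.Valid m M h p) (k : ℤ) :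
    S.Valid m M (h + k * S.N * M) (p.1, p.2 + k • p.1) :=
  ⟨hp.1, by rw [dot_add_smul, hp.2, hp.dot]; ring⟩

lemma Valid.dev {m : ℕ} {M h : ℤ} {p : Wt S.n × Wt S.n} (hp : S.Valid m M h p) (hM : 0 < M)
    (k : ℤ) : S.N * nsq (p.2 + k • p.1) ≤ ((h + k * S.N * M : ℤ) : ℝ) ^ 2 / M + S.N * nsq p.2 := by
  have e : ∀ ν : Wt S.n, nsq ν = (H43.dot ν ν : ℤ) := fun ν => by simp [nsq, H43.dot, sq]
  have c : ∀ ν ω : Wt S.n, H43.dot ν ω = H43.dot ω ν := fun ν ω => by simp [H43.dot, mul_comm]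
  have hM' : (0 : ℝ) < M := by exact_mod_cast hM
  rw [e, e, dot_add_smul, c p.2, c p.1, dot_add_smul, dot_add_smul, hp.2, hp.dot, c p.1, hp.2,
    ← sub_le_iff_le_add, le_div_iff₀ hM']
  push_cast
  nlinarith [sq_nonneg (h : ℝ)]

variable {m : ℕ} {ε c η κ : ℝ}

lemma Valid.out (hC : Cst m ε c η κ) (hP : Plane m ε c η) (hG : S.G12 m ε c κ) {D R : ℝ} {M h : ℤ}
    {p : Wt S.n × Wt S.n} (hp : S.Valid m M h p) (hD : 0 ≤ D) (h1 : D ≤ κ * R) (h2 : D ≤ η * R)
    (hd : S.N * nsq p.2 ≤ (h : ℝ) ^ 2 / M + D ^ 2) (hl : c * (c * R) < h / √(M : ℝ))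
    (hu : h / √(M : ℝ) ≤ c * R) : S.L m c R p.2 ∧ ∀ μ : GaussianInt, ¬ inP m c (c * R) μ →
      S.Phi (msym p.2) (Sum.inl μ) = ∑ u ∈ UF m M, S.face m M p (u, μ) := by
  obtain ⟨⟨u₀, hu₀, π₀, hπ₀⟩, hh⟩ := hp
  obtain ⟨hex, hM⟩ := mem_UF.1 hu₀
  have hR : 0 ≤ R := nonneg_of_mul_nonneg_right (hD.trans h1) hC.k0
  have hM0 : (0 : ℝ) < M := by exact_mod_cast hM ▸ GaussianInt.norm_pos.2 hex.1.1
  have hs : ip (S.push (p.2 ∘ π₀)) (un u₀) = h / √(M : ℝ) := by
    rw [ip_un, ipZ_push, ← hπ₀, dot_perm, hh, hM]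
  have hs2 : (h / √(M : ℝ)) ^ 2 = (h : ℝ) ^ 2 / M := by rw [div_pow, Real.sq_sqrt hM0.le]
  have h3 := ip_sq_add (S.push (p.2 ∘ π₀)) (un u₀)
  rw [hex.norm_un, hs, hs2, ← norm_gi] at h3
  have h4 := S.norm_push_le (p.2 ∘ π₀)
  have h5 := nsq_perm p.2 π₀
  have hcc : 0 ≤ c * (c * R) := by have := hC.c0; positivity
  have hcr : |cr (S.push (p.2 ∘ π₀)) (un u₀)| ≤ D := by
    rw [← abs_of_nonneg hD, ← sq_le_sq]
    rw [h5] at h4
    linarith
  obtain ⟨hL, hπ⟩ := hG R D (p.2 ∘ π₀) hD h1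
    (hP.strip hex (by rw [hs, abs_of_nonneg (hcc.trans hl.le)]; exact hu) (hcr.trans h2))
    (by rw [h5]; nlinarith [sq_nonneg (cr (S.push (p.2 ∘ π₀)) (un u₀))])
  have e0 : ∀ π : Perm (Fin S.n), (p.2 ∘ π₀) ∘ (π₀⁻¹ * π : Perm (Fin S.n)) = p.2 ∘ π := fun π => by
    funext i; simp
  have hL' := hL.perm (π₀⁻¹ * 1)
  rw [e0] at hL'
  refine ⟨hL', fun μ hμ => ?_⟩
  rw [Phi_msym_inl, Finset.sum_congr rfl fun u hu => (face_apply m M p u μ).trans (if_pos hu),
    Finset.sum_comm]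
  refine Finset.sum_congr rfl fun π _ => ?_
  by_cases hq : S.push (p.2 ∘ π) = μ
  · have key : ∃ ξ, S.Fuse (π₀⁻¹ * π) u₀ ξ := by
      rcases hπ (π₀⁻¹ * π) with ⟨ζ, s, hg⟩ | hin | ⟨u, v, hu', _, hf, hc, _⟩
      · exact ⟨_, hg.fuse _⟩
      · rw [e0, hq] at hin
        exact absurd hin hμ
      · by_cases e1 : u₀ = u
        · exact ⟨_, e1 ▸ hf⟩
        by_cases e2 : u₀ = -u
        · exact ⟨_, by rw [e2]; simpa using hf.neg⟩
        have h6 := hP.two hu' hex e1 e2 hc (hcr.trans (h2.trans (by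
          have := hC.h4; have := hC.e0; nlinarith)))
        have h7 := abs_ip_le (S.push (p.2 ∘ π₀)) (un u₀)
        rw [hex.norm_un, hs, mul_one] at h7
        have h8 := le_abs_self (h / √(M : ℝ))
        have h9 : R / 2 ≤ c * (c * R) := by have := hC.c2; nlinarith
        have h10 : ‖(S.push (p.2 ∘ π₀) : ℂ)‖ ≤ 3 / 8 * R :=
          le_of_mul_le_mul_left (by linarith) hC.e0
        linarith
    obtain ⟨ξ, hξ⟩ := key
    obtain ⟨v, rfl, hv, hn⟩ := hξ.prim hex.1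
    have hv' : v ∈ UF m M := mem_UF.2 ⟨⟨hv, hn ▸ hex.2⟩, hn.trans hM⟩
    have e3 : p.1 ∘ π = S.rhoZ v := by
      funext i
      have := congrFun hξ i
      rw [← rhoZ_cast, ← rhoZ_cast, ← hπ₀] at this
      simpa using this
    rw [Finset.sum_eq_single v (fun u _ hu => if_neg fun h => hu (rhoZ_inj (h.1.symm.trans e3)))
      fun h => absurd hv' h, if_pos hq, if_pos ⟨e3, hq⟩]
  · simp [hq]

end Side

section two

variable (S S' : Side) (m : ℕ)

abbrev FI := (Wt S.n × Wt S.n) ⊕ (Wt S'.n × Wt S'.n)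

noncomputable def fv (M : ℤ) : FI S S' → Y2 := Sum.elim (S.face m M) (S'.face m M)

def fT (M h : ℤ) : Set (FI S S') := {i | Sum.elim (S.Valid m M h) (S'.Valid m M h) i}

noncomputable def nq : FI S S' → ℝ :=
  Sum.elim (fun p => S.N * nsq p.2) fun p => S'.N * nsq p.2

def shI (j : ℤ) : FI S S' → FI S S' :=
  Sum.map (fun p => (p.1, p.2 + (j * S'.N) • p.1)) fun p => (p.1, p.2 + (j * S.N) • p.1)

variable {S S' m}

lemma nq_nonneg (i : FI S S') : 0 ≤ nq S S' i := by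
  cases i <;> exact mul_nonneg (Nat.cast_nonneg _) (nsq_nonneg _)

lemma sh_fv (M j : ℤ) (i : FI S S') :
    (fv S S' m M i).mapDomain (sh (j * S.N * S'.N)) = fv S S' m M (shI S S' j i) := by
  cases i with
  | inl p => rw [mul_right_comm]; exact Side.sh_face m M _ p
  | inr p => exact Side.sh_face m M _ p

lemma sh_fT {M h : ℤ} {i : FI S S'} (hi : i ∈ fT S S' m M h) (j : ℤ) :
    shI S S' j i ∈ fT S S' m M (h + j * S.N * S'.N * M) := by
  cases i with
  | inl p => rw [mul_right_comm j]; exact Side.Valid.sh hi _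
  | inr p => exact Side.Valid.sh hi _

lemma sh_nq {M h : ℤ} {i : FI S S'} (hi : i ∈ fT S S' m M h) (hM : 0 < M) (j : ℤ) :
    nq S S' (shI S S' j i) ≤ ((h + j * S.N * S'.N * M : ℤ) : ℝ) ^ 2 / M + nq S S' i := by
  cases i with
  | inl p => rw [mul_right_comm j]; exact Side.Valid.dev hi hM _
  | inr p => exact Side.Valid.dev hi hM _

lemma res_im {x : X} (hx : Im S S' x) (M h : ℤ) :
    Res m M h x ∈ Submodule.span ℝ (fv S S' m M '' fT S S' m M h) := by
  obtain ⟨f, f', hf, hf', rfl⟩ := hx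
  rw [map_sub, hf.eq_sum, hf'.eq_sum]
  simp only [map_sum, map_smul]
  refine Submodule.sub_mem _ (Submodule.sum_mem _ fun ν _ => Submodule.smul_mem _ _ ?_)
    (Submodule.sum_mem _ fun ν _ => Submodule.smul_mem _ _ ?_)
  · refine Submodule.span_mono ?_ (Side.res_msym m M h ν)
    rintro _ ⟨p, hp, rfl⟩
    exact ⟨Sum.inl p, hp, rfl⟩
  · refine Submodule.span_mono ?_ (Side.res_msym m M h ν)
    rintro _ ⟨p, hp, rfl⟩
    exact ⟨Sum.inr p, hp, rfl⟩

lemma span_sh {M h : ℤ} {x : Y2} (hx : x ∈ Submodule.span ℝ (fv S S' m M '' fT S S' m M h))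
    (j : ℤ) : x.mapDomain (sh (j * S.N * S'.N)) ∈
      Submodule.span ℝ (fv S S' m M '' fT S S' m M (h + j * S.N * S'.N * M)) := by
  have := Submodule.mem_map_of_mem (f := Finsupp.lmapDomain ℝ ℝ (sh (j * S.N * S'.N))) hx
  rw [Submodule.map_span] at this
  refine Submodule.span_mono ?_ this
  rintro _ ⟨_, ⟨i, hi, rfl⟩, rfl⟩
  exact ⟨_, sh_fT hi j, (sh_fv M j i).symm⟩

lemma wn_mapDomain {Y Y' : Type} (f : Y → Y') (x : Y →₀ ℝ) :
    wn (fun _ => 1) (x.mapDomain f) ≤ wn (fun _ => 1) x := by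
  have := wn_lc_le (w := fun _ => 1) (fun _ => zero_le_one) (fun y => Finsupp.single (f y) 1) x
  simp only [wn_single, abs_one, mul_one] at this
  convert this using 2
  simp [Finsupp.linearCombination_apply, Finsupp.mapDomain]

lemma finite_Y0 (m : ℕ) (M h : ℤ) (δ : ℝ) : {p : GaussianInt × GaussianInt |
    p.1 ∈ UF m M ∧ ipZ p.2 p.1 = h ∧ |cr p.2 (un p.1)| ≤ δ}.Finite := by
  refine ((UF m M).finite_toSet.prod (finite_norm_le ((h : ℝ) ^ 2 + δ ^ 2))).subset ?_
  rintro ⟨u, μ⟩ ⟨h1, h2, h3⟩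
  refine ⟨h1, ?_⟩
  have hu := (mem_UF.1 h1).1
  have e := ip_sq_add μ (un u)
  have h4 : (1 : ℝ) ≤ u.norm := by exact_mod_cast GaussianInt.norm_pos.2 hu.1.1
  dsimp only at h2 h3
  rw [hu.norm_un, ← norm_gi, ip_un, h2, div_pow, Real.sq_sqrt (by linarith)] at e
  have h5 : (h : ℝ) ^ 2 / u.norm ≤ (h : ℝ) ^ 2 := div_le_self (sq_nonneg _) h4
  have h6 := sq_le_sq' (abs_le.1 h3).1 (abs_le.1 h3).2
  change (μ.norm : ℝ) ≤ _
  linarith

lemma exists_coef (la : LAStmt) (S S' : Side) (m : ℕ) (δ : ℝ) : ∃ C D : ℝ, 0 ≤ C ∧ 0 ≤ D ∧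
    ∀ (M h : ℤ) (x : X), 0 < M → M ≤ m → Im S S' x →
      (∀ u ∈ UF m M, ∀ μ, ipZ μ u = h → x (Sum.inl μ) ≠ 0 → |cr μ (un u)| ≤ δ) →
      ∃ a : FI S S' →₀ ℝ,
        (∀ i, a i ≠ 0 → i ∈ fT S S' m M h ∧ nq S S' i ≤ (h : ℝ) ^ 2 / M + D ^ 2) ∧
        Finsupp.linearCombination ℝ (fv S S' m M) a = Res m M h x ∧
        wn (fun _ => 1) a ≤ C * wn (fun _ => 1) (Res m M h x) := by
  choose I₀ C hC hT hsol using fun p : ℤ × ℤ =>
    la _ _ (fv S S' m p.1) (fT S S' m p.1 p.2) _ (finite_Y0 m p.1 p.2 δ)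
  let F : Finset (ℤ × ℤ) := Finset.Icc 0 (m : ℤ) ×ˢ Finset.Icc 0 ((S.N : ℤ) * S'.N * m)
  have h0 : 0 ≤ ∑ p ∈ F, ∑ i ∈ I₀ p, nq S S' i :=
    Finset.sum_nonneg fun _ _ => Finset.sum_nonneg fun i _ => nq_nonneg i
  refine ⟨∑ p ∈ F, C p, √(∑ p ∈ F, ∑ i ∈ I₀ p, nq S S' i), Finset.sum_nonneg fun p _ => hC p,
    Real.sqrt_nonneg _, fun M h x hM hMm hx hs => ?_⟩
  rw [Real.sq_sqrt h0]
  have hNN : (0 : ℤ) < S.N * S'.N := by have := S.hN; have := S'.hN; positivity
  have hQ : (0 : ℤ) < S.N * S'.N * M := mul_pos hNN hM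
  obtain ⟨h₀, j, e, h1, h2⟩ : ∃ h₀ j : ℤ, h = h₀ + j * S.N * S'.N * M ∧ 0 ≤ h₀ ∧
      h₀ < S.N * S'.N * M := ⟨h % (S.N * S'.N * M), h / (S.N * S'.N * M), by
    have := Int.emod_add_mul_ediv h (S.N * S'.N * M)
    linarith, Int.emod_nonneg _ hQ.ne', Int.emod_lt_of_pos _ hQ⟩
  have hF : (M, h₀) ∈ F := Finset.mem_product.2 ⟨Finset.mem_Icc.2 ⟨hM.le, hMm⟩,
    Finset.mem_Icc.2 ⟨h1, h2.le.trans (mul_le_mul_of_nonneg_left hMm hNN.le)⟩⟩
  have hsp := span_sh (res_im (m := m) hx M h) (-j)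
  rw [show h + -j * S.N * S'.N * M = h₀ by linarith] at hsp
  obtain ⟨a, ha, hav, hw⟩ := hsol (M, h₀) _ hsp fun y hy => by
    obtain ⟨y', hy', rfl⟩ := Finset.mem_image.1
      (Finsupp.mapDomain_support (Finsupp.mem_support_iff.2 hy))
    obtain ⟨u, μ⟩ := y'
    rw [Finsupp.mem_support_iff, Res_apply] at hy'
    split_ifs at hy' with h3
    · refine ⟨h3.1, ?_, ?_⟩
      · simp only [sh]
        rw [ipZ_shift, h3.2, (mem_UF.1 h3.1).2]
        linarith
      · simp only [sh]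
        rw [cr_shift]
        exact hs u h3.1 μ h3.2 hy'
    · exact absurd rfl hy'
  refine ⟨a.mapDomain (shI S S' j), fun i hi => ?_, ?_, (wn_mapDomain _ _).trans (hw.trans ?_)⟩
  · obtain ⟨i', hi', rfl⟩ := Finset.mem_image.1
      (Finsupp.mapDomain_support (Finsupp.mem_support_iff.2 hi))
    have h3 := hT _ _ (ha hi')
    refine ⟨e ▸ sh_fT h3 j, (sh_nq h3 hM j).trans ?_⟩
    rw [← e]
    have h4 := Finset.single_le_sum (f := nq S S') (fun i _ => nq_nonneg i) (ha hi')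
    have h5 := Finset.single_le_sum (f := fun p => ∑ i ∈ I₀ p, nq S S' i)
      (fun _ _ => Finset.sum_nonneg fun i _ => nq_nonneg i) hF
    linarith
  · have e1 : Res m M h x = ((Res m M h x).mapDomain (sh (-j * S.N * S'.N))).mapDomain
        (sh (j * S.N * S'.N)) := by
      rw [← Finsupp.mapDomain_comp, Finsupp.mapDomain_congr (g := id) fun p _ => by
        simpa using sh_neg (j * S.N * S'.N) p, Finsupp.mapDomain_id]
    rw [e1, ← hav, Finsupp.linearCombination_mapDomain, ← Finsupp.lmapDomain_apply ℝ ℝ,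
      Finsupp.apply_linearCombination]
    congr 2
    funext i
    exact (sh_fv M j i).symm
  · exact mul_le_mul (Finset.single_le_sum (fun p _ => hC p) hF) (wn_mapDomain _ _)
      (wn_nonneg (fun _ => zero_le_one) _) (Finset.sum_nonneg fun p _ => hC p)

lemma cnt (m : ℕ) (H : Finset (ℤ × ℤ)) (μ : GaussianInt) :
    (∑ p ∈ H, ∑ u ∈ UF m p.1, if ipZ μ u = p.2 then (1 : ℝ) else 0) =
      ∑ u ∈ ExF m, if (u.norm, ipZ μ u) ∈ H then 1 else 0 := by
  simp only [UF, Finset.sum_filter]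
  rw [Finset.sum_comm]
  refine Finset.sum_congr rfl fun u _ => ?_
  rw [← Finset.sum_ite_eq H (u.norm, ipZ μ u) fun _ => (1 : ℝ)]
  refine Finset.sum_congr rfl fun p _ => ?_
  rw [← ite_and]
  exact if_congr ⟨fun h => Prod.ext h.1 h.2, fun h => by rw [← h]; exact ⟨rfl, rfl⟩⟩ rfl rfl

noncomputable def Y1 (S S' : Side) : (FI S S' →₀ ℝ) →ₗ[ℝ] (Wt S.n →₀ ℝ) :=
  Finsupp.linearCombination ℝ (Sum.elim (fun p => msym p.2) fun _ => 0)

noncomputable def Y1' (S S' : Side) : (FI S S' →₀ ℝ) →ₗ[ℝ] (Wt S'.n →₀ ℝ) :=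
  Finsupp.linearCombination ℝ (Sum.elim (fun _ => 0) fun p => -msym p.2)

noncomputable def fG (S S' : Side) : FI S S' → X :=
  Sum.elim (fun p => S.Phi (msym p.2)) fun p => S'.Phi (msym p.2)

lemma rep_lc {c R τ : ℝ} (a : FI S S' →₀ ℝ)
    (h : ∀ i, a i ≠ 0 → Sum.elim (fun p => S.L m c R p.2) (fun p => S'.L m c R p.2) i) :
    Rep S S' m c R τ (Finsupp.linearCombination ℝ (fG S S') a)
      ((S.n.factorial + S'.n.factorial) * wn (fun i => Real.exp (τ * nq S S' i)) a) := by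
  refine ⟨Y1 S S' a, Y1' S S' a, ?_, ?_, fun ν hν => ?_, fun ν hν => ?_, ?_, ?_⟩
  · refine sym_sum _ fun i _ => Sym.smul ?_ _
    cases i
    · exact sym_msym _
    · exact sym_zero
  · refine sym_sum _ fun i _ => Sym.smul ?_ _
    cases i
    · exact sym_zero
    · exact (sym_msym _).neg
  · rw [Y1, Finsupp.linearCombination_apply, Finsupp.sum, Finsupp.finsetSum_apply] at hν
    obtain ⟨i, hi, h1⟩ := Finset.exists_ne_zero_of_sum_ne_zero hν
    cases i with
    | inl p =>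
      obtain ⟨π, rfl⟩ := msym_ne (right_ne_zero_of_mul h1)
      exact Side.L.perm (h _ (Finsupp.mem_support_iff.1 hi)) π
    | inr p => simp at h1
  · rw [Y1', Finsupp.linearCombination_apply, Finsupp.sum, Finsupp.finsetSum_apply] at hν
    obtain ⟨i, hi, h1⟩ := Finset.exists_ne_zero_of_sum_ne_zero hν
    cases i with
    | inl p => simp at h1
    | inr p =>
      obtain ⟨π, rfl⟩ := msym_ne (neg_ne_zero.1 (right_ne_zero_of_mul h1))
      exact Side.L.perm (h _ (Finsupp.mem_support_iff.1 hi)) π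
  · rw [Y1, Y1', Finsupp.apply_linearCombination, Finsupp.apply_linearCombination,
      Finsupp.linearCombination_apply, Finsupp.linearCombination_apply,
      Finsupp.linearCombination_apply, Finsupp.sum, Finsupp.sum, Finsupp.sum,
      ← Finset.sum_sub_distrib]
    refine Finset.sum_congr rfl fun i _ => ?_
    cases i <;> simp [fG]
  · rw [add_mul, ← wn_const_mul, ← wn_const_mul]
    refine add_le_add ((wn_lc_le (fun _ => (Real.exp_pos _).le) _ _).trans (wn_mono fun i _ => ?_))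
      ((wn_lc_le (fun _ => (Real.exp_pos _).le) _ _).trans (wn_mono fun i _ => ?_))
    · cases i with
      | inl p => exact S.cost_msym τ p.2
      | inr p => rw [Sum.elim_inr, wn_zero]; positivity
    · cases i with
      | inl p => rw [Sum.elim_inl, wn_zero]; positivity
      | inr p => rw [Sum.elim_inr, wn_neg]; exact S'.cost_msym τ p.2

lemma wn_res {τ : ℝ} (hτ : 0 ≤ τ) (m : ℕ) (H : Finset (ℤ × ℤ)) (x : X) :
    ∑ p ∈ H, Real.exp (τ * ((p.2 : ℝ) ^ 2 / p.1)) * wn (fun _ => 1) (Res m p.1 p.2 x) ≤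
      (ExF m).card * nrm τ x := by
  let w : GaussianInt ⊕ ZMod 4 → ℝ :=
    Sum.elim (fun μ => Real.exp (τ * (μ.norm : ℝ))) fun _ => 1
  let k : ℤ × ℤ → GaussianInt ⊕ ZMod 4 → ℝ := fun p =>
    Sum.elim (fun μ => ∑ u ∈ UF m p.1, if ipZ μ u = p.2 then (1 : ℝ) else 0) fun _ => 0
  have h1 : ∀ p : ℤ × ℤ, Real.exp (τ * ((p.2 : ℝ) ^ 2 / p.1)) * wn (fun _ => 1) (Res m p.1 p.2 x) ≤
      wn (fun y => k p y * w y) x := by
    intro p
    rw [← wn_const_mul]
    refine (wn_lc_le (fun _ => by positivity) _ _).trans (wn_mono fun y _ => ?_)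
    cases y with
    | inr _ => simp [k]
    | inl μ =>
      refine (wn_sum_le (fun _ => by positivity) _ _).trans ?_
      simp only [k, w, Sum.elim_inl, Finset.sum_mul]
      refine Finset.sum_le_sum fun u hu => ?_
      split_ifs with h
      · obtain ⟨hu, hM⟩ := mem_UF.1 hu
        have e := ip_sq_add μ (un u)
        have h4 : (0 : ℝ) ≤ u.norm := by exact_mod_cast GaussianInt.norm_nonneg u
        rw [hu.norm_un, ← norm_gi, ip_un, h, div_pow, Real.sq_sqrt h4, hM] at e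
        simp only [wn_single, abs_one, one_mul, mul_one, Real.exp_le_exp]
        exact mul_le_mul_of_nonneg_left (by nlinarith [sq_nonneg (cr μ (un u))]) hτ
      · simp
  refine (Finset.sum_le_sum fun p _ => h1 p).trans ?_
  rw [nrm, ← wn_const_mul]
  simp only [wn, Finsupp.sum]
  rw [Finset.sum_comm]
  refine Finset.sum_le_sum fun y _ => ?_
  rw [← Finset.mul_sum, ← Finset.sum_mul]
  refine mul_le_mul_of_nonneg_left (mul_le_mul_of_nonneg_right ?_ (nrm_w_nonneg τ y)) (abs_nonneg _)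
  cases y with
  | inr _ => simp [k]
  | inl μ =>
    simp only [k, Sum.elim_inl]
    rw [cnt, Finset.card_eq_sum_ones, Nat.cast_sum]
    exact Finset.sum_le_sum fun u _ => by split_ifs <;> simp

end two

theorem stepB (la : LAStmt) : StepBStmt := by
  intro S S' m ε c η κ hC hP hG hG' δ hδ
  obtain ⟨C, D, hC0, hD, hcoef⟩ := exists_coef la S S' m δ
  have hc0 := hC.c0
  have he0 := hC.e0
  have hη := hC.η0
  have hκ := hC.k0
  refine ⟨(S.n.factorial + S'.n.factorial) * (Real.exp (D ^ 2) * C * (ExF m).card),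
    max (max (D / κ) (D / η)) (δ / (η * c)), by positivity, fun R hR τ hτ hτ1 x hx hs => ?_⟩
  have h1 : D ≤ κ * R := by
    rw [← div_le_iff₀' hκ]; exact ((le_max_left _ _).trans (le_max_left _ _)).trans hR
  have h2 : D ≤ η * R := by
    rw [← div_le_iff₀' hη]; exact ((le_max_right _ _).trans (le_max_left _ _)).trans hR
  have h3 : δ ≤ η * (c * R) := by
    rw [← mul_assoc, ← div_le_iff₀' (by positivity)]; exact (le_max_right _ _).trans hR
  have hR0 : 0 ≤ R := nonneg_of_mul_nonneg_right (hD.trans h1) hκ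
  have hcR : 0 ≤ c * R := by positivity
  have hcc : 0 ≤ c * (c * R) := by positivity
  -- a point of the support that is high in some direction lies in the strip of that direction
  have high : ∀ μ : GaussianInt, x (Sum.inl μ) ≠ 0 → ∀ u, Ex m u → c * (c * R) < ip μ (un u) →
      ip μ (un u) ≤ c * R ∧ |cr μ (un u)| ≤ δ ∧
        ∀ v, Ex m v → c * (c * R) < ip μ (un v) → v = u := by
    intro μ hμ
    have key : ∀ u v, Ex m u → Ex m v → inP m c R μ → |cr μ (un u)| ≤ δ →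
        c * (c * R) < ip μ (un v) → v = u ∨ v = -u := by
      intro u v hu hv hin hcr hh
      by_contra hne
      push Not at hne
      have h4 := hP.other μ hu hv hne.1 hne.2
      have h5 : |ip μ (un u)| ≤ c * R := abs_le.2
        ⟨by have := hin.2 _ hu.neg; rw [un_neg, ip_neg] at this; linarith, hin.2 u hu⟩
      have he1 : ε ≤ 1 := by
        have := hC.sep
        have h6 : (1 : ℝ) ≤ m := by exact_mod_cast hC.hm
        have h7 : (1 : ℝ) ≤ (m : ℝ) ^ 2 := one_le_pow₀ h6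
        nlinarith
      have h6 := mul_le_mul_of_nonneg_left h5 (show 0 ≤ 1 - ε / 2 by linarith)
      have h7 := mul_le_mul_of_nonneg_right hC.c3 hcR
      have h8 := mul_le_mul_of_nonneg_right hC.h4 hcR
      nlinarith
    intro u hu hh
    rcases hs μ hμ with hin | ⟨hin, u₀, hu₀, hcr⟩
    · exact absurd (hin.2 u hu) (not_le.2 hh)
    · have h4 : |cr μ (un u)| ≤ δ := by
        rcases key u₀ u hu₀ hu hin hcr hh with rfl | rfl
        · exact hcr
        · rwa [un_neg, cr_neg, abs_neg]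
      refine ⟨hin.2 u hu, h4, fun v hv hv' => (key u v hu hv hin h4 hv').resolve_right ?_⟩
      rintro rfl
      rw [un_neg, ip_neg] at hv'
      linarith
  let H : Finset (ℤ × ℤ) := (((x.comapDomain Sum.inl Sum.inl_injective.injOn).support ×ˢ
    ExF m).filter fun q => c * (c * R) < ip q.1 (un q.2)).image fun q => (q.2.norm, ipZ q.1 q.2)
  have hH : ∀ p ∈ H, 0 < p.1 ∧ p.1 ≤ m ∧ c * (c * R) < p.2 / √(p.1 : ℝ) ∧
      p.2 / √(p.1 : ℝ) ≤ c * R := by
    intro p hp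
    obtain ⟨⟨μ, u⟩, hq, rfl⟩ := Finset.mem_image.1 hp
    obtain ⟨hq, hh⟩ := Finset.mem_filter.1 hq
    obtain ⟨hμ, hu⟩ := Finset.mem_product.1 hq
    rw [mem_ExF] at hu
    have := high μ (by simpa using hμ) u hu hh
    rw [ip_un] at this hh
    exact ⟨GaussianInt.norm_pos.2 hu.1.1, hu.2, hh, this.1⟩
  choose! a ha hav haw using fun p (hp : p ∈ H) => hcoef p.1 p.2 x (hH p hp).1 (hH p hp).2.1 hx
    fun u hu μ hh hμ => (high μ hμ u (mem_UF.1 hu).1 (by
      rw [ip_un, hh, (mem_UF.1 hu).2]; exact (hH p hp).2.2.1)).2.1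
  have hout : ∀ p ∈ H, ∀ i, a p i ≠ 0 →
      Sum.elim (fun q => S.L m c R q.2) (fun q => S'.L m c R q.2) i ∧
      ∀ μ : GaussianInt, ¬ inP m c (c * R) μ →
        fG S S' i (Sum.inl μ) = ∑ u ∈ UF m p.1, fv S S' m p.1 i (u, μ) := by
    intro p hp i hi
    obtain ⟨h4, h5⟩ := ha p hp i hi
    cases i with
    | inl q => exact Side.Valid.out hC hP hG h4 hD h1 h2 h5 (hH p hp).2.2.1 (hH p hp).2.2.2
    | inr q => exact Side.Valid.out hC hP hG' h4 hD h1 h2 h5 (hH p hp).2.2.1 (hH p hp).2.2.2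
  refine ⟨Finsupp.linearCombination ℝ (fG S S') (∑ p ∈ H, a p), ?_, fun μ hμ => ?_⟩
  · obtain ⟨y, y', e1, e2, e3, e4, e5, e6⟩ := rep_lc (m := m) (c := c) (R := R) (τ := τ)
      (∑ p ∈ H, a p) fun i hi => by
        rw [Finsupp.finsetSum_apply] at hi
        obtain ⟨p, hp, h4⟩ := Finset.exists_ne_zero_of_sum_ne_zero hi
        exact (hout p hp i h4).1
    refine ⟨y, y', e1, e2, e3, e4, e5, e6.trans ?_⟩
    rw [mul_assoc]
    refine mul_le_mul_of_nonneg_left ?_ (by positivity)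
    refine (wn_sum_le (fun _ => (Real.exp_pos _).le) _ _).trans ?_
    rw [mul_assoc]
    refine le_trans ?_ (mul_le_mul_of_nonneg_left (wn_res hτ m H x) (by positivity))
    rw [Finset.mul_sum]
    refine Finset.sum_le_sum fun p hp => ?_
    have h4 : wn (fun i => Real.exp (τ * nq S S' i)) (a p) ≤
        wn (fun _ => Real.exp (D ^ 2) * Real.exp (τ * ((p.2 : ℝ) ^ 2 / p.1)) * 1) (a p) :=
      wn_mono fun i hi => by
        rw [mul_one, ← Real.exp_add, Real.exp_le_exp]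
        have := mul_le_mul_of_nonneg_left (ha p hp i hi).2 hτ
        nlinarith [sq_nonneg D]
    rw [wn_const_mul] at h4
    refine h4.trans ((mul_le_mul_of_nonneg_left (haw p hp) (by positivity)).trans_eq ?_)
    ring
  · by_contra hin
    refine hμ ?_
    have e1 : ∀ p ∈ H, Finsupp.linearCombination ℝ (fG S S') (a p) (Sum.inl μ) =
        (∑ u ∈ UF m p.1, if ipZ μ u = p.2 then (1 : ℝ) else 0) * x (Sum.inl μ) := by
      intro p hp
      have e2 : ∀ u ∈ UF m p.1, (if ipZ μ u = p.2 then (1 : ℝ) else 0) * x (Sum.inl μ) =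
          ∑ i ∈ (a p).support, a p i * fv S S' m p.1 i (u, μ) := by
        intro u hu
        have := Res_apply m p.1 p.2 x u μ
        rw [← hav p hp, Finsupp.linearCombination_apply, Finsupp.sum,
          Finsupp.finsetSum_apply] at this
        simp only [Finsupp.smul_apply, smul_eq_mul] at this
        rw [this]
        by_cases h4 : ipZ μ u = p.2 <;> simp [h4, hu]
      rw [Finset.sum_mul, Finset.sum_congr rfl e2, Finset.sum_comm,
        Finsupp.linearCombination_apply, Finsupp.sum, Finsupp.finsetSum_apply]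
      refine Finset.sum_congr rfl fun i hi => ?_
      rw [Finsupp.smul_apply, smul_eq_mul, (hout p hp i (Finsupp.mem_support_iff.1 hi)).2 μ hin,
        Finset.mul_sum]
    rw [Finsupp.sub_apply, map_sum, Finsupp.finsetSum_apply, Finset.sum_congr rfl e1,
      ← Finset.sum_mul, cnt]
    by_cases hx0 : x (Sum.inl μ) = 0
    · simp [hx0]
    obtain ⟨u, hu, hh⟩ : ∃ u, Ex m u ∧ c * (c * R) < ip μ (un u) := by
      rcases hs μ hx0 with h4 | ⟨_, u, hu, hcr⟩
      · exact absurd h4 hin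
      by_contra hne
      push Not at hne
      refine hin (hP.strip hu (abs_le.2 ⟨?_, hne u hu⟩) (hcr.trans h3))
      have := hne _ hu.neg
      rw [un_neg, ip_neg] at this
      linarith
    rw [Finset.sum_eq_single u (fun v hv hvu => if_neg fun hm => hvu ?_)
      fun h => absurd (mem_ExF.2 hu) h, if_pos, one_mul, sub_self]
    · exact Finset.mem_image.2 ⟨(μ, u), Finset.mem_filter.2
        ⟨Finset.mem_product.2 ⟨by simpa using hx0, mem_ExF.2 hu⟩, hh⟩, rfl⟩
    · exact (high μ hx0 u hu hh).2.2 v (mem_ExF.1 hv) (by rw [ip_un]; exact (hH _ hm).2.2.1)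

end Pool.Agent.MP_caba0b_al.H43
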